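import Mathlib

/-!
# Hopf orders in group algebras, Grothendieck groups of lattices, and the Swan map

Definitions for the question whether `φ_Λ : G_0^R(Λ) → G_0(K[G])` is injective for every
`R`-Hopf order `Λ` in `K[G]`.
-/

open scoped TensorProduct

namespace Q4.Swan

/-- An `R`-Hopf order in the group algebra `K[G]` (with its usual Hopf algebra structure over `K`):
a subring `Λ` of `K[G]` which is a finitely generated `R`-submodule, spans `K[G]` over `K`, and
satisfies `Δ(Λ) ⊆ Λ ⊗_R Λ` (the `R`-span of the tensors `y ⊗ z` with `y, z ∈ Λ`),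
`ε(Λ) ⊆ R` and `S(Λ) ⊆ Λ`. The last field records that `Λ` contains the group `G`. -/
structure HopfOrder (R K G : Type) [CommRing R] [Field K] [Algebra R K] [Group G] where
  /-- the underlying `R`-subalgebra of `K[G]` -/
  alg : Subalgebra R (MonoidAlgebra K G)
  finite : Module.Finite R alg
  span_eq_top : Submodule.span K (alg : Set (MonoidAlgebra K G)) = ⊤
  comul_mem : ∀ x ∈ alg, Coalgebra.comul (R := K) x ∈
    Submodule.span R {t : MonoidAlgebra K G ⊗[K] MonoidAlgebra K G |
      ∃ y ∈ alg, ∃ z ∈ alg, t = y ⊗ₜ[K] z}
  counit_mem : ∀ x ∈ alg, Coalgebra.counit (R := K) x ∈ (algebraMap R K).range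
  antipode_mem : ∀ x ∈ alg, HopfAlgebra.antipode K x ∈ alg
  of_mem : ∀ g : G, MonoidAlgebra.of K G g ∈ alg

section Groups

variable (R A : Type) [CommRing R] [Ring A] [Algebra R A]

/-- An `A`-lattice, for an algebra `A` over the commutative ring `R`: a finitely generated left
`A`-module which is free as an `R`-module (where `R` acts through `R → A`). -/
structure Lattice : Type 1 where
  /-- the underlying abelian group -/
  carrier : Type
  [addCommGroup : AddCommGroup carrier]
  [moduleR : Module R carrier]
  [moduleA : Module A carrier]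
  [tower : IsScalarTower R A carrier]
  [finite : Module.Finite A carrier]
  [free : Module.Free R carrier]

attribute [instance] Lattice.addCommGroup Lattice.moduleR Lattice.moduleA Lattice.tower
  Lattice.finite Lattice.free

/-- The relations `[L] = [L'] + [L'']` for all short exact sequences `0 → L' → L → L'' → 0` of
`A`-lattices. -/
def latticeRelations : AddSubgroup (FreeAbelianGroup (Lattice R A)) :=
  AddSubgroup.closure {x | ∃ (L' L L'' : Lattice R A) (f : L'.carrier →ₗ[A] L.carrier)
    (g : L.carrier →ₗ[A] L''.carrier), Function.Injective f ∧ Function.Exact f g ∧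
      Function.Surjective g ∧ x = FreeAbelianGroup.of L - FreeAbelianGroup.of L' -
        FreeAbelianGroup.of L''}

/-- The Grothendieck group `G_0^R(A)` of the `A`-lattices. -/
abbrev G0Lattice : Type 1 := FreeAbelianGroup (Lattice R A) ⧸ latticeRelations R A

end Groups

/-- A finitely generated left module over the ring `A`. -/
structure FGMod (A : Type) [Ring A] : Type 1 where
  /-- the underlying abelian group -/
  carrier : Type
  [addCommGroup : AddCommGroup carrier]
  [module : Module A carrier]
  [finite : Module.Finite A carrier]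

attribute [instance] FGMod.addCommGroup FGMod.module FGMod.finite

/-- The relations `[V] = [V'] + [V'']` for all short exact sequences `0 → V' → V → V'' → 0` of
finitely generated left `A`-modules. -/
def moduleRelations (A : Type) [Ring A] : AddSubgroup (FreeAbelianGroup (FGMod A)) :=
  AddSubgroup.closure {x | ∃ (V' V V'' : FGMod A) (f : V'.carrier →ₗ[A] V.carrier)
    (g : V.carrier →ₗ[A] V''.carrier), Function.Injective f ∧ Function.Exact f g ∧
      Function.Surjective g ∧ x = FreeAbelianGroup.of V - FreeAbelianGroup.of V' -
        FreeAbelianGroup.of V''}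

/-- The Grothendieck group `G_0(A)` of the finitely generated left `A`-modules. -/
abbrev G0Mod (A : Type) [Ring A] : Type 1 := FreeAbelianGroup (FGMod A) ⧸ moduleRelations A

section Swan

variable {R A B : Type} [CommRing R] [Ring A] [Algebra R A] [Ring B]

/-- The class `[L]` of a lattice in `G_0^R(A)`. -/
def latticeClass (L : Lattice R A) : G0Lattice R A :=
  QuotientAddGroup.mk (FreeAbelianGroup.of L)

/-- The class `[V]` of a finitely generated module in `G_0(B)`. -/
def moduleClass (V : FGMod B) : G0Mod B :=
  QuotientAddGroup.mk (FreeAbelianGroup.of V)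

/-- Let `R` be a domain with field of fractions `K`, and let `j : A → B` be the inclusion of an
`R`-order `A` in the `K`-algebra `B = KA`. The `B`-module `V` is the extension of scalars `K ⊗_R L`
of the `A`-lattice `L`: there is an injective additive map `ι : L → V` which is
compatible with the actions of `A ⊆ B`, such that every element of `V` has a multiple
by a nonzero element of `R` in the image of `ι`. -/
def IsExtension (j : A →+* B) (L : Lattice R A) (V : FGMod B) : Prop :=
  ∃ ι : L.carrier →+ V.carrier, Function.Injective ι ∧
    (∀ (a : A) (m : L.carrier), ι (a • m) = j a • ι m) ∧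
    ∀ v : V.carrier, ∃ r : R, r ≠ 0 ∧ ∃ m, j (algebraMap R A r) • v = ι m

/-- `φ` is the map `G_0^R(A) → G_0(B)`, `[L] ↦ [K ⊗_R L]`. -/
def IsSwanMap (j : A →+* B) (φ : G0Lattice R A →+ G0Mod B) : Prop :=
  ∀ L : Lattice R A, ∃ V, IsExtension j L V ∧ φ (latticeClass L) = moduleClass V

variable (R) in
/-- The map `G_0^R(A) → G_0(B)`, `[L] ↦ [K ⊗_R L]` exists and is not injective. -/
def SwanNotInjective (j : A →+* B) : Prop :=
  ∃ φ : G0Lattice R A →+ G0Mod B, IsSwanMap j φ ∧ ¬ Function.Injective φ

/-- For a Hopf order `Λ` in `K[G]`, the map `φ_Λ : G_0^R(Λ) → G_0(K[G])`, `[L] ↦ [K ⊗_R L]`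
exists and is not injective. -/
def HopfOrder.SwanNotInjective {R K G : Type} [CommRing R] [Field K] [Algebra R K] [Group G]
    (Λ : HopfOrder R K G) : Prop :=
  Q4.Swan.SwanNotInjective R (Λ.alg.val : Λ.alg →+* MonoidAlgebra K G)

end Swan

/-- A finite extension `K` of `ℚ_p`. -/
structure LocalField (p : ℕ) [Fact p.Prime] where
  /-- the field -/
  K : Type
  [field : Field K]
  [algebra : Algebra ℚ_[p] K]
  [finite : FiniteDimensional ℚ_[p] K]

attribute [instance] LocalField.field LocalField.algebra LocalField.finite

section LocalField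

variable {p : ℕ} [Fact p.Prime] (F : LocalField p)

noncomputable instance : Algebra ℤ_[p] F.K := Algebra.compHom F.K (algebraMap ℤ_[p] ℚ_[p])

instance : IsScalarTower ℤ_[p] ℚ_[p] F.K := IsScalarTower.of_algebraMap_eq fun _ => rfl

/-- An `R`-Hopf order in `K[G]`, where `R` is the valuation ring of `K`, that is, the integral
closure of `ℤ_p` in `K`. -/
def LocalField.Order (G : Type) [Group G] : Type :=
  HopfOrder (integralClosure ℤ_[p] F.K) F.K G

/-- The map `φ_Λ` of the Hopf order `Λ` is not injective. -/
def LocalField.SwanNotInjective {G : Type} [Group G] (Λ : F.Order G) : Prop :=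
  HopfOrder.SwanNotInjective (R := integralClosure ℤ_[p] F.K) Λ

end LocalField

end Q4.Swan
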