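import Pool.Agent.Q4.Swan.Defs

/-!
# Extension of scalars and the Swan map
-/

open scoped TensorProduct

namespace Q4.Swan

section Ext

variable {R A : Type} (K : Type) [CommRing R] [Ring A] [Algebra R A] [Field K] [Algebra R K]

/-- The extension of scalars `K ⊗_R L` of a lattice `L`. -/
def Ext (L : Lattice R A) : Type := K ⊗[R] L.carrier

noncomputable instance (L : Lattice R A) : AddCommGroup (Ext K L) :=
  inferInstanceAs (AddCommGroup (K ⊗[R] L.carrier))

noncomputable instance (L : Lattice R A) : Module K (Ext K L) :=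
  inferInstanceAs (Module K (K ⊗[R] L.carrier))

/-- The action of `a ∈ A` on `K ⊗_R L`, `k ⊗ m ↦ k ⊗ a m`. -/
noncomputable def extAct (L : Lattice R A) (a : A) : Module.End K (Ext K L) :=
  ((Algebra.lsmul R R L.carrier) a).baseChange K

variable {K}

theorem extAct_one (L : Lattice R A) : extAct K L 1 = 1 := by
  rw [extAct, map_one]
  exact LinearMap.baseChange_id

theorem extAct_mul (L : Lattice R A) (a b : A) :
    extAct K L (a * b) = extAct K L a * extAct K L b := by
  rw [extAct, map_mul]
  exact LinearMap.baseChange_comp _ _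

theorem extAct_tmul (L : Lattice R A) (a : A) (k : K) (m : L.carrier) :
    extAct K L a (k ⊗ₜ[R] m) = (k ⊗ₜ[R] (a • m) : K ⊗[R] L.carrier) := rfl

end Ext

section Swan

variable {R K G : Type} [CommRing R] [Field K] [Algebra R K] [Group G] {Λ : HopfOrder R K G}

/-- The inclusion of `G` into the Hopf order `Λ`. -/
noncomputable def HopfOrder.of (Λ : HopfOrder R K G) : G →* Λ.alg :=
  (MonoidAlgebra.of K G).codRestrict Λ.alg Λ.of_mem

/-- The action of `G ⊆ Λ` on `K ⊗_R L`, for a `Λ`-lattice `L`: `g (k ⊗ m) = k ⊗ g m`. -/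
noncomputable def extRep (L : Lattice R Λ.alg) : G →* Module.End K (Ext K L) :=
  MonoidHom.comp ⟨⟨extAct K L, extAct_one L⟩, extAct_mul L⟩ Λ.of

/-- The action of `K[G]` on `K ⊗_R L`: the `K`-linear extension of the action of `G`. -/
noncomputable def extHom (L : Lattice R Λ.alg) :
    MonoidAlgebra K G →ₐ[K] Module.End K (Ext K L) :=
  MonoidAlgebra.lift K _ G (extRep L)

/-- The `K[G]`-module structure on `K ⊗_R L`. -/
noncomputable instance (L : Lattice R Λ.alg) : Module (MonoidAlgebra K G) (Ext K L) :=
  Module.compHom (Ext K L) (extHom L).toRingHom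

theorem smul_ext (L : Lattice R Λ.alg) (x : MonoidAlgebra K G) (v : Ext K L) :
    x • v = extHom L x v := rfl

/-- The elements `x` of `Λ` act on `K ⊗_R L` by `x (k ⊗ m) = k ⊗ x m`. -/
theorem extHom_of_mem [IsFractionRing R K] (L : Lattice R Λ.alg) (x : Λ.alg) :
    extHom L (x : MonoidAlgebra K G) = extAct K L x := by
  classical
  have hle : Submodule.span R (Set.range (MonoidAlgebra.of K G)) ≤
      Subalgebra.toSubmodule Λ.alg := by
    rw [Submodule.span_le]
    rintro _ ⟨g, rfl⟩
    exact Λ.of_mem g
  have hgen : ∀ y : MonoidAlgebra K G, ∀ hy : y ∈ Λ.alg,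
      y ∈ Submodule.span R (Set.range (MonoidAlgebra.of K G)) →
      ∀ (k : K) (m : L.carrier),
      extHom L y (k ⊗ₜ[R] m) = (k ⊗ₜ[R] ((⟨y, hy⟩ : Λ.alg) • m) : K ⊗[R] L.carrier) := by
    intro y hy hspan
    induction hspan using Submodule.span_induction with
    | mem y hy' =>
      intro k m
      obtain ⟨g, rfl⟩ := hy'
      rw [extHom, MonoidAlgebra.lift_of]
      rfl
    | zero =>
      intro k m
      have h0 : (⟨0, hy⟩ : Λ.alg) = 0 := rfl
      rw [h0, zero_smul, map_zero, TensorProduct.tmul_zero]
      rfl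
    | add a b ha hb iha ihb =>
      intro k m
      have h0 : (⟨a + b, hy⟩ : Λ.alg) = ⟨a, hle ha⟩ + ⟨b, hle hb⟩ := rfl
      rw [h0, add_smul, map_add, TensorProduct.tmul_add, LinearMap.add_apply, iha (hle ha),
        ihb (hle hb)]
      rfl
    | smul r a ha iha =>
      intro k m
      have h0 : (⟨r • a, hy⟩ : Λ.alg) = r • ⟨a, hle ha⟩ := rfl
      rw [h0, smul_assoc, TensorProduct.tmul_smul, ← iha (hle ha), algebra_compatible_smul K r a,
        map_smul, LinearMap.smul_apply]
      exact (algebra_compatible_smul (M := K ⊗[R] L.carrier) K r _).symm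
  obtain ⟨b, hb⟩ := IsLocalization.exist_integer_multiples_of_finset (nonZeroDivisors R)
    ((x : MonoidAlgebra K G).coeff.support.image (x : MonoidAlgebra K G).coeff)
  have hb' : ∀ g ∈ (x : MonoidAlgebra K G).coeff.support, ∃ r : R,
      algebraMap R K r = (b : R) • (x : MonoidAlgebra K G).coeff g := fun g hg =>
    hb _ (Finset.mem_image_of_mem _ hg)
  choose! r hr using hb'
  have hbx : (b : R) • (x : MonoidAlgebra K G) ∈
      Submodule.span R (Set.range (MonoidAlgebra.of K G)) := by
    have : (b : R) • (x : MonoidAlgebra K G) =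
        ∑ g ∈ (x : MonoidAlgebra K G).coeff.support, r g • MonoidAlgebra.of K G g := by
      conv_lhs => rw [← MonoidAlgebra.sum_coeff_single (x : MonoidAlgebra K G)]
      rw [Finsupp.sum, Finset.smul_sum]
      refine Finset.sum_congr rfl fun g hg => ?_
      rw [MonoidAlgebra.smul_single, ← hr g hg, MonoidAlgebra.of_apply, MonoidAlgebra.smul_single,
        Algebra.smul_def, mul_one]
    rw [this]
    exact Submodule.sum_mem _ fun g _ => Submodule.smul_mem _ _ (Submodule.subset_span ⟨g, rfl⟩)
  have hne : algebraMap R K (b : R) ≠ 0 := (IsLocalization.map_units K b).ne_zero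
  refine LinearMap.ext fun v => ?_
  induction v using TensorProduct.induction_on with
  | zero => exact (map_zero _).trans (map_zero _).symm
  | add v w hv hw => exact (map_add _ _ _).trans ((congrArg₂ _ hv hw).trans (map_add _ _ _).symm)
  | tmul k m =>
    have key := hgen _ (Λ.alg.smul_mem x.2 (b : R)) hbx k m
    have h0 : (⟨(b : R) • (x : MonoidAlgebra K G), Λ.alg.smul_mem x.2 (b : R)⟩ : Λ.alg) =
        (b : R) • x := rfl
    rw [h0, smul_assoc, TensorProduct.tmul_smul,
      algebra_compatible_smul K (b : R) (x : MonoidAlgebra K G), map_smul, LinearMap.smul_apply,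
      algebra_compatible_smul (M := K ⊗[R] L.carrier) K (b : R)] at key
    exact smul_right_injective (M := K ⊗[R] L.carrier) hne key

instance ext_finite (L : Lattice R Λ.alg) : Module.Finite (MonoidAlgebra K G) (Ext K L) := by
  have : IsScalarTower K (MonoidAlgebra K G) (Ext K L) := by
    refine ⟨fun k x v => ?_⟩
    rw [smul_ext, smul_ext, map_smul, LinearMap.smul_apply]
  have := Λ.finite
  have : Module.Finite R L.carrier := Module.Finite.trans Λ.alg L.carrier
  have : Module.Finite K (Ext K L) := inferInstanceAs (Module.Finite K (K ⊗[R] L.carrier))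
  exact Module.Finite.of_restrictScalars_finite K _ _

/-- Extension of scalars: the finitely generated `K[G]`-module `K ⊗_R L` for a `Λ`-lattice `L`. -/
noncomputable def ext (L : Lattice R Λ.alg) : FGMod (MonoidAlgebra K G) := ⟨Ext K L⟩

theorem extHom_comm {L L' : Lattice R Λ.alg} (f : L.carrier →ₗ[Λ.alg] L'.carrier)
    (x : MonoidAlgebra K G) (v : K ⊗[R] L.carrier) :
    (f.restrictScalars R).baseChange K (extHom L x v) =
      extHom L' x ((f.restrictScalars R).baseChange K v) := by
  induction x using MonoidAlgebra.induction_on with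
  | of g =>
    induction v using TensorProduct.induction_on with
    | zero =>
      have h1 : extHom L (MonoidAlgebra.of K G g) (0 : Ext K L) = 0 := map_zero _
      have h2 : extHom L' (MonoidAlgebra.of K G g) (0 : Ext K L') = 0 := map_zero _
      exact (congrArg _ h1).trans ((map_zero _).trans
        ((congrArg (extHom L' (MonoidAlgebra.of K G g)) (map_zero _)).trans h2).symm)
    | add a b ha hb =>
      have h1 : extHom L (MonoidAlgebra.of K G g) (a + b : K ⊗[R] L.carrier) =
          extHom L (MonoidAlgebra.of K G g) a + extHom L (MonoidAlgebra.of K G g) b :=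
        map_add _ _ _
      have h2 : ∀ a b : K ⊗[R] L'.carrier, extHom L' (MonoidAlgebra.of K G g) (a + b : K ⊗[R] L'.carrier) =
          extHom L' (MonoidAlgebra.of K G g) a + extHom L' (MonoidAlgebra.of K G g) b :=
        fun a b => map_add _ _ _
      rw [h1]
      refine (map_add _ _ _).trans ?_
      rw [map_add, h2, ha, hb]
      rfl
    | tmul k m =>
      have h1 : ∀ (L : Lattice R Λ.alg) (k : K) (m : L.carrier),
          extHom L (MonoidAlgebra.of K G g) (k ⊗ₜ[R] m) =
          (k ⊗ₜ[R] (Λ.of g • m) : K ⊗[R] L.carrier) := by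
        intro L k m
        rw [extHom, MonoidAlgebra.lift_of]
        rfl
      rw [h1, LinearMap.baseChange_tmul, LinearMap.baseChange_tmul, h1,
        LinearMap.restrictScalars_apply, LinearMap.restrictScalars_apply, map_smul]
  | add a b ha hb =>
    rw [map_add, map_add, LinearMap.add_apply, LinearMap.add_apply]
    refine (map_add _ _ _).trans ?_
    rw [ha, hb]
    rfl
  | smul r a ha =>
    rw [map_smul, map_smul, LinearMap.smul_apply, LinearMap.smul_apply]
    refine (map_smul _ _ _).trans ?_
    rw [ha]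
    rfl

/-- Functoriality of extension of scalars. -/
noncomputable def extMap {L L' : Lattice R Λ.alg} (f : L.carrier →ₗ[Λ.alg] L'.carrier) :
    (ext L).carrier →ₗ[MonoidAlgebra K G] (ext L').carrier where
  toFun := (f.restrictScalars R).baseChange K
  map_add' := map_add _
  map_smul' x v := extHom_comm f x v

theorem extMap_apply {L L' : Lattice R Λ.alg} (f : L.carrier →ₗ[Λ.alg] L'.carrier)
    (v : K ⊗[R] L.carrier) : extMap f v = LinearMap.lTensor K (f.restrictScalars R) v := rfl

theorem latticeRelations_le [IsFractionRing R K] (Λ : HopfOrder R K G) :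
    latticeRelations R Λ.alg ≤
      (moduleRelations (MonoidAlgebra K G)).comap (FreeAbelianGroup.map ext) := by
  have : Module.Flat R K := IsLocalization.flat K (nonZeroDivisors R)
  refine (AddSubgroup.closure_le _).2 ?_
  rintro _ ⟨L', L, L'', f, g, hf, hfg, hg, rfl⟩
  refine AddSubgroup.mem_comap.2 (AddSubgroup.subset_closure ?_)
  refine ⟨ext L', ext L, ext L'', extMap f, extMap g, ?_, ?_, ?_, ?_⟩
  · exact Module.Flat.lTensor_preserves_injective_linearMap (M := K) (f.restrictScalars R) hf
  · exact Module.Flat.lTensor_exact (M := K) (f := f.restrictScalars R)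
      (g := g.restrictScalars R) hfg
  · exact LinearMap.lTensor_surjective K (g := g.restrictScalars R) hg
  · simp [FreeAbelianGroup.map_of_apply]

/-- The Swan map. -/
noncomputable def swanMap [IsFractionRing R K] (Λ : HopfOrder R K G) :
    G0Lattice R Λ.alg →+ G0Mod (MonoidAlgebra K G) :=
  QuotientAddGroup.map _ _ (FreeAbelianGroup.map ext) (latticeRelations_le Λ)

theorem exists_denom [IsFractionRing R K] (L : Lattice R Λ.alg) (v : K ⊗[R] L.carrier) :
    ∃ r : R, r ∈ nonZeroDivisors R ∧ ∃ m : L.carrier, r • v = (1 : K) ⊗ₜ[R] m := by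
  induction v using TensorProduct.induction_on with
  | zero => exact ⟨1, one_mem _, 0, by simp⟩
  | tmul k m =>
    obtain ⟨⟨a, b⟩, hab⟩ := IsLocalization.surj (nonZeroDivisors R) k
    refine ⟨b, b.2, a • m, ?_⟩
    rw [TensorProduct.smul_tmul', TensorProduct.tmul_smul, TensorProduct.smul_tmul']
    congr 1
    rw [Algebra.smul_def, Algebra.smul_def, mul_one, mul_comm]
    exact hab
  | add v w hv hw =>
    obtain ⟨r, hr, m, hm⟩ := hv
    obtain ⟨s, hs, n, hn⟩ := hw
    refine ⟨r * s, mul_mem hr hs, s • m + r • n, ?_⟩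
    rw [smul_add, TensorProduct.tmul_add, TensorProduct.tmul_smul, TensorProduct.tmul_smul, ← hm,
      ← hn, smul_smul, smul_smul, mul_comm s r]

theorem isExtension_ext [IsFractionRing R K] (hinj : Function.Injective (algebraMap R K))
    (L : Lattice R Λ.alg) :
    IsExtension (Λ.alg.val : Λ.alg →+* MonoidAlgebra K G) L (ext L) := by
  have hflat : Function.Injective (fun m : L.carrier => ((1 : K) ⊗ₜ[R] m : K ⊗[R] L.carrier)) := by
    let b := Module.Free.chooseBasis R L.carrier
    intro m n hmn
    have hmn' : ((1 : K) ⊗ₜ[R] m : K ⊗[R] L.carrier) = (1 : K) ⊗ₜ[R] n := hmn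
    apply b.repr.injective
    ext i
    have h := congrArg (fun z => (Algebra.TensorProduct.basis K b).repr z i) hmn'
    simp only [Algebra.TensorProduct.basis_repr_tmul] at h
    apply hinj
    simpa using h
  refine ⟨⟨⟨fun m => ((1 : K) ⊗ₜ[R] m : K ⊗[R] L.carrier), TensorProduct.tmul_zero _ _⟩,
    TensorProduct.tmul_add _⟩, hflat, ?_, ?_⟩
  · intro x m
    change ((1 : K) ⊗ₜ[R] (x • m) : K ⊗[R] L.carrier) = extHom L (x : MonoidAlgebra K G) _
    rw [extHom_of_mem]
    rfl
  · intro v
    obtain ⟨r, hr, m, hm⟩ := exists_denom L v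
    have hr0 : r ≠ 0 := by
      rintro rfl
      exact one_ne_zero (α := K) (by
        have := hr.1 1 (by simp)
        rw [← map_one (algebraMap R K), this, map_zero])
    refine ⟨r, hr0, m, ?_⟩
    change extHom L (algebraMap R (MonoidAlgebra K G) r) v = ((1 : K) ⊗ₜ[R] m : K ⊗[R] L.carrier)
    rw [← hm, IsScalarTower.algebraMap_apply R K (MonoidAlgebra K G), AlgHom.commutes]
    exact algebraMap_smul (M := K ⊗[R] L.carrier) K r v

theorem isSwanMap [IsFractionRing R K] (hinj : Function.Injective (algebraMap R K))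
    (Λ : HopfOrder R K G) :
    IsSwanMap (Λ.alg.val : Λ.alg →+* MonoidAlgebra K G) (swanMap Λ) :=
  fun L => ⟨ext L, isExtension_ext hinj L, rfl⟩

end Swan

end Q4.Swan
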