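import Pool.Agent.Q4.Swan.Lattices

/-!
# The invariant on lattices
-/

open scoped TensorProduct

namespace Q4.Swan

section

variable {R K : Type} [CommRing R] [Field K] [Algebra R K] (D : Dat R K)

/-- The idempotent of the order. -/
noncomputable def fL : (La D).alg := ⟨ff K, ff_mem R D.h2⟩

/-- `s g - 1`. -/
noncomputable def tL : (La D).alg := algebraMap R _ D.s * ⟨gg K, gg_mem R D.h2⟩ - 1

theorem fL_mul_fL : fL D * fL D = fL D := Subtype.ext (ff_mul_ff D.h2)

theorem tL_rel : (tL D * tL D + 2 * tL D + 4) * fL D = 0 := by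
  have h1 : (⟨gg K, gg_mem R D.h2⟩ : (La D).alg) ^ 2 * fL D = - fL D := Subtype.ext sq_mul_ff
  have h2 : (algebraMap R (La D).alg D.s) * (algebraMap R (La D).alg D.s) = 3 := by
    rw [← map_mul, D.hs, map_ofNat]
  unfold tL
  linear_combination 3 * h1 + (⟨gg K, gg_mem R D.h2⟩ : (La D).alg) ^ 2 * fL D * h2

variable (L : Lattice R (La D).alg)

/-- `f L`. -/
def XX : AddSubgroup L.carrier where
  carrier := {x | fL D • x = x}
  add_mem' {a b} ha hb := by
    change fL D • (a + b) = a + b
    have ha' : fL D • a = a := ha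
    have hb' : fL D • b = b := hb
    rw [smul_add, ha', hb']
  zero_mem' := smul_zero _
  neg_mem' {a} ha := by
    change fL D • (-a) = -a
    have ha' : fL D • a = a := ha
    rw [smul_neg, ha']

theorem mem_XX {x : L.carrier} : x ∈ XX D L ↔ fL D • x = x := Iff.rfl

/-- The operator `s g - 1` on `f L`. -/
noncomputable def tau : XX D L →+ XX D L where
  toFun x := ⟨tL D • (x : L.carrier), by
    rw [mem_XX, smul_smul, mul_comm, ← smul_smul, (mem_XX D L).1 x.2]⟩
  map_zero' := Subtype.ext (smul_zero _)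
  map_add' a b := Subtype.ext (smul_add _ _ _)

theorem coe_tau (x : XX D L) : (tau D L x : L.carrier) = tL D • (x : L.carrier) := rfl

theorem tau_rel (x : XX D L) : tau D L (tau D L x) + 2 • tau D L x + 4 • x = 0 := by
  apply Subtype.ext
  have h := congrArg (fun a => a • (x : L.carrier)) (tL_rel D)
  simp only [zero_smul] at h
  rw [← smul_smul, (mem_XX D L).1 x.2] at h
  change tL D • (tL D • (x : L.carrier)) + 2 • (tL D • (x : L.carrier)) + 4 • (x : L.carrier) = 0
  rw [← h]
  rw [add_smul, add_smul, mul_smul, mul_smul]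
  congr 1
  · congr 1
    rw [← Nat.cast_smul_eq_nsmul (La D).alg 2]
    rfl
  · rw [← Nat.cast_smul_eq_nsmul (La D).alg 4]
    rfl

theorem two_torsion_free (x : L.carrier) (hx : 2 • x = 0) : x = 0 := by
  let b := Module.Free.chooseBasis R L.carrier
  apply b.repr.injective
  rw [map_zero]
  ext i
  have h : (2 : R) * b.repr x i = 0 := by
    have h1 : (2 : R) • x = 0 := by
      rw [← hx, ← Nat.cast_smul_eq_nsmul R 2]
      rfl
    have h2 := congrArg (fun y => b.repr y i) h1
    simpa using h2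
  apply D.inj
  rw [Finsupp.zero_apply, map_zero]
  have h3 := congrArg (algebraMap R K) h
  rw [map_mul, map_ofNat, map_zero, mul_eq_zero] at h3
  exact h3.resolve_left D.h2

theorem XX_two_torsion_free (x : XX D L) (hx : 2 • x = 0) : x = 0 :=
  Subtype.ext (two_torsion_free D L x (congrArg Subtype.val hx))

theorem index_two_ne_zero [Finite (R ⧸ Ideal.span {(2 : R)})] :
    (nsmulAddMonoidHom 2 : L.carrier →+ L.carrier).range.index ≠ 0 := by
  have := (La D).finite
  have : Module.Finite R L.carrier := Module.Finite.trans (La D).alg L.carrier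
  set I : Ideal R := Ideal.span {(2 : R)} with hI
  have : Module.Finite (R ⧸ I) (L.carrier ⧸ (I • ⊤ : Submodule R L.carrier)) :=
    Module.Finite.of_restrictScalars_finite R _ _
  have hfin : Finite (L.carrier ⧸ (I • ⊤ : Submodule R L.carrier)) :=
    Module.finite_of_finite (R ⧸ I)
  have h1 : (I • ⊤ : Submodule R L.carrier).toAddSubgroup.index ≠ 0 := by
    have : Nat.card (L.carrier ⧸ (I • ⊤ : Submodule R L.carrier)) ≠ 0 := Nat.card_ne_zero.2
      ⟨⟨0⟩, hfin⟩
    exact this
  have h2 : (I • ⊤ : Submodule R L.carrier).toAddSubgroup ≤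
      (nsmulAddMonoidHom 2 : L.carrier →+ L.carrier).range := by
    intro x hx
    have hx' : x ∈ (I • ⊤ : Submodule R L.carrier) := hx
    rw [hI, Submodule.ideal_span_singleton_smul] at hx'
    obtain ⟨y, -, rfl⟩ := (Submodule.mem_smul_pointwise_iff_exists _ _ _).1 hx'
    refine ⟨y, ?_⟩
    change 2 • y = (2 : R) • y
    rw [← Nat.cast_smul_eq_nsmul R 2]
    rfl
  exact fun h0 => h1 (Nat.eq_zero_of_zero_dvd (h0 ▸ AddSubgroup.index_dvd_of_le h2))

theorem index_ne_zero [Finite (R ⧸ Ideal.span {(2 : R)})] : (dbl (tau D L)).index ≠ 0 := by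
  let F : L.carrier →+ XX D L :=
    { toFun := fun x => ⟨fL D • x, by rw [mem_XX, smul_smul, fL_mul_fL]⟩
      map_zero' := Subtype.ext (smul_zero _)
      map_add' := fun a b => Subtype.ext (smul_add _ _ _) }
  have hF : Function.Surjective F := fun x => ⟨x, Subtype.ext ((mem_XX D L).1 x.2)⟩
  have h1 := AddSubgroup.index_map_dvd (nsmulAddMonoidHom 2 : L.carrier →+ L.carrier).range hF
  have h2 : (nsmulAddMonoidHom 2 : L.carrier →+ L.carrier).range.map F ≤ dbl (tau D L) := by
    rintro _ ⟨_, ⟨x, rfl⟩, rfl⟩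
    refine mem_dbl.2 ⟨F x, 0, ?_⟩
    rw [map_zero, add_zero]
    exact (map_nsmul F 2 x).symm
  intro h0
  have h3 := (AddSubgroup.index_dvd_of_le h2).trans h1
  rw [h0] at h3
  exact index_two_ne_zero D L (Nat.eq_zero_of_zero_dvd h3)

theorem three_not_dvd [Finite (R ⧸ Ideal.span {(2 : R)})] : ¬ 3 ∣ (dbl (tau D L)).index := by
  intro h
  have : (dbl (tau D L)).FiniteIndex := ⟨index_ne_zero D L⟩
  have hfinQ : Finite (XX D L ⧸ dbl (tau D L)) := AddSubgroup.finite_quotient_of_finiteIndex
  have : Fact (Nat.Prime 3) := ⟨Nat.prime_three⟩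
  obtain ⟨x, hx⟩ := exists_prime_addOrderOf_dvd_card' (G := XX D L ⧸ dbl (tau D L)) 3 h
  have h2 : 2 • x = 0 := by
    induction x using QuotientAddGroup.induction_on with
    | H x =>
      rw [← QuotientAddGroup.mk_nsmul, QuotientAddGroup.eq_zero_iff]
      exact mem_dbl.2 ⟨x, 0, by simp⟩
  have h3 := addOrderOf_dvd_iff_nsmul_eq_zero.2 h2
  rw [hx] at h3
  norm_num at h3

/-- The invariant modulo `3`. -/
noncomputable def inv3 [Finite (R ⧸ Ideal.span {(2 : R)})] (L : Lattice R (La D).alg) :
    Additive (ZMod 3)ˣ :=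
  haveI : Fact (Nat.Prime 3) := ⟨Nat.prime_three⟩
  Additive.ofMul (Units.mk0 ((dbl (tau D L)).index : ZMod 3) (by
    rw [Ne, ZMod.natCast_eq_zero_iff]
    exact three_not_dvd D L))

theorem inv3_add [Finite (R ⧸ Ideal.span {(2 : R)})] (L' L L'' : Lattice R (La D).alg)
    (f : L'.carrier →ₗ[(La D).alg] L.carrier)
    (g : L.carrier →ₗ[(La D).alg] L''.carrier) (hf : Function.Injective f)
    (hfg : Function.Exact f g) (hg : Function.Surjective g) :
    inv3 D L = inv3 D L' + inv3 D L'' := by
  let F : XX D L' →+ XX D L :=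
    { toFun := fun x => ⟨f x, by rw [mem_XX, ← map_smul, (mem_XX D L').1 x.2]⟩
      map_zero' := Subtype.ext (map_zero f)
      map_add' := fun a b => Subtype.ext (map_add f _ _) }
  let H : XX D L →+ XX D L'' :=
    { toFun := fun x => ⟨g x, by rw [mem_XX, ← map_smul, (mem_XX D L).1 x.2]⟩
      map_zero' := Subtype.ext (map_zero g)
      map_add' := fun a b => Subtype.ext (map_add g _ _) }
  have key : (dbl (tau D L)).index ≡ (dbl (tau D L')).index * (dbl (tau D L'')).index
      [MOD 3] := by
    refine dbl_index_modEq (f := F) (h := H) (tau_rel D L) ?_ ?_ ?_ ?_ ?_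
      (XX_two_torsion_free D L) (XX_two_torsion_free D L'') (index_ne_zero D L')
    · intro a b hab
      exact Subtype.ext (hf (congrArg Subtype.val hab))
    · rintro ⟨y, hy⟩
      obtain ⟨x, rfl⟩ := hg y
      refine ⟨⟨fL D • x, by rw [mem_XX, smul_smul, fL_mul_fL]⟩, Subtype.ext ?_⟩
      change g (fL D • x) = g x
      rw [map_smul]
      exact hy
    · intro x
      constructor
      · intro hx
        have hx' : g x = 0 := congrArg Subtype.val hx
        obtain ⟨y, hy⟩ := (hfg _).1 hx'
        refine ⟨⟨y, ?_⟩, Subtype.ext hy⟩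
        rw [mem_XX]
        apply hf
        rw [map_smul, hy, (mem_XX D L).1 x.2]
      · rintro ⟨y, rfl⟩
        exact Subtype.ext ((hfg _).2 ⟨y, rfl⟩)
    · intro x
      exact Subtype.ext (map_smul f _ _)
    · intro x
      exact Subtype.ext (map_smul g _ _)
  unfold inv3
  apply Additive.toMul.injective
  rw [toMul_add, toMul_ofMul, toMul_ofMul, toMul_ofMul]
  apply Units.ext
  rw [Units.val_mul, Units.val_mk0, Units.val_mk0, Units.val_mk0, ← Nat.cast_mul]
  exact (ZMod.natCast_eq_natCast_iff _ _ _).2 key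

/-- The invariant on the free abelian group. -/
noncomputable def Inv3 [Finite (R ⧸ Ideal.span {(2 : R)})] :
    FreeAbelianGroup (Lattice R (La D).alg) →+ Additive (ZMod 3)ˣ := FreeAbelianGroup.lift (inv3 D)

theorem relations_le [Finite (R ⧸ Ideal.span {(2 : R)})] :
    latticeRelations R (La D).alg ≤ (Inv3 D).ker := by
  refine (AddSubgroup.closure_le _).2 ?_
  rintro _ ⟨L', L, L'', f, g, hf, hfg, hg, rfl⟩
  change Inv3 D _ = 0
  rw [map_sub, map_sub, Inv3, FreeAbelianGroup.lift_apply_of, FreeAbelianGroup.lift_apply_of,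
    FreeAbelianGroup.lift_apply_of, inv3_add D L' L L'' f g hf hfg hg]
  abel

/-- Multiples of `r`. -/
def mulR (r : R) : AddSubgroup R := (AddMonoidHom.mulLeft r).range

theorem mem_mulR {r x : R} : x ∈ mulR r ↔ ∃ y, r * y = x := Iff.rfl

theorem index_lat {c d : R} (hcd : c * d = 2) :
    (dbl (tau D (lat D hcd))).index = (mulR (2 : R)).index * (mulR d).index := by
  have hf : ∀ w : Mc D hcd, fL D • w = w := by
    intro w
    apply Subtype.ext
    change fL D • (w : WM D) = w
    rw [smul_def]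
    change chi D (ff K) w = w
    rw [chi_ff]
    rfl
  let ψ : (R × R) →+ XX D (lat D hcd) :=
    { toFun := fun p => ⟨eqv D hcd p, hf _⟩
      map_zero' := Subtype.ext (map_zero _)
      map_add' := fun a b => Subtype.ext (map_add _ _ _) }
  have hψ : Function.Surjective ψ := by
    rintro ⟨w, hw⟩
    obtain ⟨p, rfl⟩ := (eqv D hcd).surjective w
    exact ⟨p, rfl⟩
  have hinj : Function.Injective ψ := by
    intro a b hab
    have := congrArg Subtype.val hab
    exact (eqv D hcd).injective this
  have htau : ∀ p, tau D (lat D hcd) (ψ p) = ψ (- (2 * (c * p.2)), d * p.1 - 2 * p.2) := by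
    intro p
    apply Subtype.ext
    apply Subtype.ext
    change (tL D) • (par D c p) = par D c _
    have h1 : (tL D) • (par D c p) = algebraMap R K D.s • JJ D (par D c p) - par D c p := by
      rw [smul_def]
      have h2 : ((tL D : (La D).alg) : MonoidAlgebra K C4) =
          (algebraMap R K D.s) • gg K - 1 := by
        unfold tL
        rw [algebraMap_smul, Algebra.smul_def]
        rfl
      rw [h2, map_sub, map_smul, chi_gg, map_one]
      rfl
    have hus : D.s * D.u = 1 := by rw [mul_comm, D.hu]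
    rw [h1, JJ_par D hcd, algebraMap_smul, ← map_smul, ← map_sub]
    congr 1
    refine Prod.ext ?_ ?_
    · change D.s * (D.u * (p.1 - 2 * (c * p.2))) - p.1 = _
      linear_combination (p.1 - 2 * (c * p.2)) * hus
    · change D.s * (D.u * (d * p.1 - p.2)) - p.2 = _
      linear_combination (d * p.1 - p.2) * hus
  rw [← AddSubgroup.index_comap_of_surjective _ hψ, ← AddSubgroup.index_prod]
  congr 1
  ext ⟨x, y⟩
  rw [AddSubgroup.mem_comap, AddSubgroup.mem_prod, mem_dbl, mem_mulR, mem_mulR]
  constructor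
  · rintro ⟨a, b, hab⟩
    obtain ⟨a, rfl⟩ := hψ a
    obtain ⟨b, rfl⟩ := hψ b
    rw [htau, ← map_nsmul, ← map_add] at hab
    have h := hinj hab
    have h1 := congrArg Prod.fst h
    have h2 := congrArg Prod.snd h
    simp only [Prod.fst_add, Prod.snd_add, Prod.smul_fst, Prod.smul_snd] at h1 h2
    rw [nsmul_eq_mul] at h1 h2
    push_cast at h1 h2
    refine ⟨⟨a.1 - c * b.2, ?_⟩, ⟨c * a.2 + b.1 - c * b.2, ?_⟩⟩
    · rw [← h1]; ring
    · rw [← h2]
      linear_combination (a.2 - b.2) * hcd
  · rintro ⟨⟨x', hx⟩, ⟨y', hy⟩⟩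
    refine ⟨ψ (x', 0), ψ (y', 0), ?_⟩
    rw [htau, ← map_nsmul, ← map_add]
    congr 1
    simp only at hx hy
    refine Prod.ext ?_ ?_
    · simp [hx]
    · simp [hy]

end

end Q4.Swan
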