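import Mathlib

/-!
# An invariant modulo 3

For a torsion free abelian group `X` with an endomorphism `τ` satisfying `τ² + 2τ + 4 = 0` (so that
`τ = 2ω` for a primitive cube root of unity `ω`), we study the index of `2X + τX` in `X`
modulo `3`.
-/

namespace Q4.Swan

/-- `2X + τX`. -/
def dbl {X : Type*} [AddCommGroup X] (τ : X →+ X) : AddSubgroup X :=
  (nsmulAddMonoidHom 2 : X →+ X).range ⊔ τ.range

theorem mem_dbl {X : Type*} [AddCommGroup X] {τ : X →+ X} {x : X} :
    x ∈ dbl τ ↔ ∃ a b, 2 • a + τ b = x := by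
  unfold dbl
  rw [AddSubgroup.mem_sup]
  constructor
  · rintro ⟨_, ⟨a, rfl⟩, _, ⟨b, rfl⟩, rfl⟩
    exact ⟨a, b, rfl⟩
  · rintro ⟨a, b, rfl⟩
    exact ⟨_, ⟨a, rfl⟩, _, ⟨b, rfl⟩, rfl⟩

theorem card_modEq_one {Q : Type*} [AddCommGroup Q] [Finite Q] (ω : Q →+ Q)
    (hω : ∀ x, ω (ω x) + ω x + x = 0) (h2 : ∀ x : Q, 2 • x = 0) : Nat.card Q ≡ 1 [MOD 3] := by
  classical
  have := Fintype.ofFinite Q
  let F : Function.End Q := fun x => ω x
  have h3 : F ^ 3 ^ 1 = 1 := by
    funext x
    change ω (ω (ω x)) = x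
    have h1 := hω (ω x)
    have h2 := hω x
    have : ω (ω (ω x)) - x = 0 := by
      calc ω (ω (ω x)) - x = (ω (ω (ω x)) + ω (ω x) + ω x) - (ω (ω x) + ω x + x) := by abel
        _ = 0 := by rw [h1, h2, sub_zero]
    exact sub_eq_zero.1 this
  have : Fact (Nat.Prime 3) := ⟨Nat.prime_three⟩
  have hcard := Equiv.Perm.card_fixedPoints_modEq (p := 3) (n := 1) h3
  rw [Nat.card_eq_fintype_card]
  refine hcard.trans ?_
  have : Fintype.card ↑(Function.fixedPoints F) = 1 := by
    rw [Fintype.card_eq_one_iff]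
    refine ⟨⟨0, map_zero ω⟩, ?_⟩
    rintro ⟨y, hy⟩
    have hy' : ω y = y := hy
    have h := hω y
    rw [hy', hy'] at h
    refine Subtype.ext ?_
    change y = 0
    have h22 := h2 y
    rw [two_nsmul] at h22
    rw [h22, zero_add] at h
    exact h
  have h4 : Fintype.card ↑(Function.fixedPoints F) ≡ 1 [MOD 3] := by rw [this]
  convert h4

section

variable {X X' X'' : Type*} [AddCommGroup X] [AddCommGroup X'] [AddCommGroup X'']
  {τ : X →+ X} {τ' : X' →+ X'} {τ'' : X'' →+ X''} {f : X' →+ X} {h : X →+ X''}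

theorem dbl_index_modEq (hτ : ∀ x, τ (τ x) + 2 • τ x + 4 • x = 0)
    (hf : Function.Injective f) (hh : Function.Surjective h) (hex : ∀ x, h x = 0 ↔ ∃ y, f y = x)
    (hfτ : ∀ x, f (τ' x) = τ (f x)) (hhτ : ∀ x, h (τ x) = τ'' (h x))
    (ht : ∀ x : X, 2 • x = 0 → x = 0) (ht'' : ∀ x : X'', 2 • x = 0 → x = 0)
    (hfin : (dbl τ').index ≠ 0) :
    (dbl τ).index ≡ (dbl τ').index * (dbl τ'').index [MOD 3] := by
  set J := (dbl τ).comap f with hJ
  have ht' : ∀ x : X', 2 • x = 0 → x = 0 := fun x hx => by
    apply hf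
    rw [map_zero]
    apply ht
    rw [← map_nsmul, hx, map_zero]
  have hle : dbl τ' ≤ J := by
    intro x hx
    obtain ⟨a, b, rfl⟩ := mem_dbl.1 hx
    refine mem_dbl.2 ⟨f a, f b, ?_⟩
    rw [map_add, map_nsmul, hfτ]
  have h1 : (dbl τ).index = (dbl τ'').index * J.index := by
    have e1 : (dbl τ).map h = dbl τ'' := by
      ext x
      simp only [AddSubgroup.mem_map, mem_dbl]
      constructor
      · rintro ⟨_, ⟨a, b, rfl⟩, rfl⟩
        exact ⟨h a, h b, by rw [map_add, map_nsmul, hhτ]⟩
      · rintro ⟨a, b, rfl⟩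
        obtain ⟨a, rfl⟩ := hh a
        obtain ⟨b, rfl⟩ := hh b
        exact ⟨_, ⟨a, b, rfl⟩, by rw [map_add, map_nsmul, hhτ]⟩
    have e2 : h.ker = f.range := by
      ext x
      rw [AddMonoidHom.mem_ker, AddMonoidHom.mem_range, hex]
    have e3 : (dbl τ'').index = (dbl τ ⊔ h.ker).index := by
      rw [← e1, AddSubgroup.index_map, AddMonoidHom.range_eq_top.2 hh, AddSubgroup.index_top,
        mul_one]
    have e4 : (dbl τ).relIndex (dbl τ ⊔ h.ker) * (dbl τ ⊔ h.ker).index = (dbl τ).index :=
      AddSubgroup.relIndex_mul_index le_sup_left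
    rw [← e4, e3, mul_comm, AddSubgroup.relIndex_sup_left, e2, hJ, AddSubgroup.index_comap]
  have h2 : (dbl τ').index = (dbl τ').relIndex J * J.index :=
    (AddSubgroup.relIndex_mul_index hle).symm
  have h3 : (dbl τ').relIndex J ≡ 1 [MOD 3] := by
    have hex' : ∀ x : J, ∃ z : J, 2 • (z : X') = τ' x := by
      rintro ⟨x, hx⟩
      obtain ⟨a, b, hab⟩ := mem_dbl.1 (AddSubgroup.mem_comap.1 hx)
      have hz : f (τ' x) = 2 • (2 • (-b) + τ (a - b)) := by
        rw [hfτ, ← hab, map_add, map_nsmul, map_sub]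
        have := hτ b
        have h5 : τ (τ b) = - (2 • τ b) - 4 • b := by
          rw [← sub_eq_zero, ← this]
          abel
        rw [h5]
        simp only [smul_add, smul_sub, smul_neg, smul_smul]
        norm_num
        abel
      have hz2 : h (2 • (-b) + τ (a - b)) = 0 := by
        apply ht''
        rw [← map_nsmul, ← hz, hex]
        exact ⟨_, rfl⟩
      obtain ⟨z, hz3⟩ := (hex _).1 hz2
      refine ⟨⟨z, AddSubgroup.mem_comap.2 ?_⟩, ?_⟩
      · rw [hz3]
        exact mem_dbl.2 ⟨_, _, rfl⟩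
      · apply hf
        change f (2 • z) = _
        rw [hz, map_nsmul, hz3]
    choose w hw using hex'
    have huniq : ∀ x y : J, 2 • (x : X') = 2 • (y : X') → x = y := by
      intro x y hxy
      have : (x : X') - y = 0 := ht' _ (by rw [smul_sub, hxy, sub_self])
      exact Subtype.ext (sub_eq_zero.1 this)
    let W : J →+ J :=
      { toFun := w
        map_zero' := by
          apply huniq
          rw [hw]
          simp
        map_add' := by
          intro x y
          apply huniq
          rw [hw]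
          simp [hw] }
    have hW : ∀ x : J, 2 • (W x : X') = τ' x := hw
    have hWW : ∀ x, W (W x) + W x + x = 0 := by
      intro x
      apply huniq
      have e1 := hW x
      have e2 := hW (W x)
      have e3 : 2 • (2 • ((W (W x) + W x + x : J) : X')) = 0 := by
        have hτ' : τ' (τ' x) + 2 • τ' x + 4 • (x : X') = 0 := by
          apply hf
          rw [map_add, map_add, map_nsmul, map_nsmul, hfτ, hfτ, hτ, map_zero]
        calc 2 • (2 • ((W (W x) + W x + x : J) : X'))
            = 2 • (2 • (W (W x) : X')) + 2 • (2 • (W x : X')) + 4 • (x : X') := by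
              rw [AddSubgroup.coe_add, AddSubgroup.coe_add]
              simp only [smul_add, smul_smul]
              norm_num
          _ = 0 := by rw [e2, ← map_nsmul, e1, hτ']
      have e4 := ht' _ e3
      simpa using e4
    set N := (dbl τ').addSubgroupOf J with hN
    have hWN : N ≤ N.comap W := by
      intro x hx
      rw [AddSubgroup.mem_comap, hN, AddSubgroup.mem_addSubgroupOf]
      rw [hN, AddSubgroup.mem_addSubgroupOf] at hx
      obtain ⟨a, b, hab⟩ := mem_dbl.1 hx
      refine mem_dbl.2 ⟨-b, a - b, ?_⟩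
      have hτ' : τ' (τ' b) + 2 • τ' b + 4 • b = 0 := by
        apply hf
        rw [map_add, map_add, map_nsmul, map_nsmul, hfτ, hfτ, hτ, map_zero]
      have h5 : τ' (τ' b) = - (2 • τ' b) - 4 • b := by
        rw [← sub_eq_zero, ← hτ']
        abel
      have e3 : 2 • (2 • -b + τ' (a - b) - W x) = 0 := by
        rw [smul_sub, hW, ← hab, map_add, map_nsmul, h5, map_sub]
        simp only [smul_add, smul_sub, smul_neg, smul_smul]
        norm_num
        abel
      exact sub_eq_zero.1 (ht' _ e3)
    have hfinJ : N.index ≠ 0 := by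
      intro h0
      apply hfin
      rw [h2]
      have : (dbl τ').relIndex J = 0 := h0
      rw [this, zero_mul]
    have : N.FiniteIndex := ⟨hfinJ⟩
    have hfinQ : Finite (J ⧸ N) := AddSubgroup.finite_quotient_of_finiteIndex
    refine card_modEq_one (Q := J ⧸ N) (QuotientAddGroup.map N N W hWN) ?_ ?_
    · intro x
      induction x using QuotientAddGroup.induction_on with
      | H x =>
        rw [QuotientAddGroup.map_mk, QuotientAddGroup.map_mk, ← QuotientAddGroup.mk_add,
          ← QuotientAddGroup.mk_add, hWW, QuotientAddGroup.mk_zero]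
    · intro x
      induction x using QuotientAddGroup.induction_on with
      | H x =>
        rw [← QuotientAddGroup.mk_nsmul, QuotientAddGroup.eq_zero_iff, hN,
          AddSubgroup.mem_addSubgroupOf]
        exact mem_dbl.2 ⟨x, 0, by simp⟩
  rw [h1, h2]
  calc (dbl τ'').index * J.index = 1 * J.index * (dbl τ'').index := by ring
    _ ≡ (dbl τ').relIndex J * J.index * (dbl τ'').index [MOD 3] :=
      ((h3.symm.mul_right _).mul_right _)

end

end Q4.Swan
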