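import Pool.Agent.Q4.Swan.Index

/-!
# The kernel of the Swan map
-/

open scoped TensorProduct

namespace Q4.Swan

theorem G0Mod_eq_of_bijective {A : Type} [Ring A] {V V' : FGMod A}
    (f : V.carrier →ₗ[A] V'.carrier) (hf : Function.Bijective f) :
    (QuotientAddGroup.mk (FreeAbelianGroup.of V) : G0Mod A) =
      QuotientAddGroup.mk (FreeAbelianGroup.of V') := by
  let Z : FGMod A := { carrier := PUnit }
  have h0 : -FreeAbelianGroup.of Z ∈ moduleRelations A := by
    refine AddSubgroup.subset_closure ⟨Z, Z, Z, LinearMap.id, LinearMap.id, ?_, ?_, ?_, ?_⟩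
    · exact fun a b h => h
    · exact fun x => ⟨fun _ => ⟨x, rfl⟩, fun _ => rfl⟩
    · exact fun x => ⟨x, rfl⟩
    · abel
  have h1 : FreeAbelianGroup.of V' - FreeAbelianGroup.of V - FreeAbelianGroup.of Z ∈
      moduleRelations A := by
    refine AddSubgroup.subset_closure ⟨V, V', Z, f, 0, hf.1, ?_, ?_, rfl⟩
    · exact fun x => ⟨fun _ => hf.2 x, fun _ => rfl⟩
    · exact fun x => ⟨0, rfl⟩
  rw [QuotientAddGroup.eq]
  have h2 := sub_mem h1 h0
  convert h2 using 1
  abel

section

variable {R K : Type} [CommRing R] [Field K] [Algebra R K] (D : Dat R K)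

theorem one_mul_two : (1 : R) * 2 = 2 := one_mul 2

theorem Mc_le {c d : R} (hcd : c * d = 2) : Mc D hcd ≤ Mc D (one_mul_two (R := R)) := by
  rintro _ ⟨p, rfl⟩
  refine ⟨(p.1, c * p.2), ?_⟩
  rw [par_apply, par_apply, one_mul]

/-- The inclusion. -/
noncomputable def theta {c d : R} (hcd : c * d = 2) :
    (lat D hcd).carrier →ₗ[(La D).alg] (lat D (one_mul_two (R := R))).carrier :=
  Submodule.inclusion (Mc_le D hcd)

/-- Multiplication by `c`. -/
noncomputable def theta' {c d : R} (hcd : c * d = 2) :
    (lat D (one_mul_two (R := R))).carrier →ₗ[(La D).alg] (lat D hcd).carrier where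
  toFun w := ⟨c • (w : Mc D (one_mul_two (R := R))).1, by
    obtain ⟨w, p, rfl⟩ := w
    refine ⟨(c * p.1, p.2), ?_⟩
    change _ = c • par D 1 p
    rw [← map_smul, par_apply, par_apply]
    simp⟩
  map_add' a b := Subtype.ext (smul_add _ _ _)
  map_smul' x a := by
    apply Subtype.ext
    exact smul_comm c x (a : Mc D (one_mul_two (R := R))).1

theorem theta_theta' {c d : R} (hcd : c * d = 2)
    (w : (lat D (one_mul_two (R := R))).carrier) : theta D hcd (theta' D hcd w) = c • w := rfl

theorem extMap_theta_bijective [IsFractionRing R K] {c d : R} (hcd : c * d = 2) :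
    Function.Bijective (extMap (theta D hcd)) := by
  have : Module.Flat R K := IsLocalization.flat K (nonZeroDivisors R)
  have hc : algebraMap R K c ≠ 0 := by
    intro h
    have := congrArg (algebraMap R K) hcd
    rw [map_mul, h, zero_mul, map_ofNat] at this
    exact D.h2 this.symm
  constructor
  · refine Module.Flat.lTensor_preserves_injective_linearMap (M := K)
      ((theta D hcd).restrictScalars R) ?_
    exact Submodule.inclusion_injective (Mc_le D hcd)
  · intro v
    let v' : K ⊗[R] (lat D (one_mul_two (R := R))).carrier := v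
    refine ⟨(algebraMap R K c)⁻¹ • ((theta' D hcd).restrictScalars R).baseChange K v', ?_⟩
    change ((theta D hcd).restrictScalars R).baseChange K
      ((algebraMap R K c)⁻¹ • ((theta' D hcd).restrictScalars R).baseChange K v') = v'
    rw [map_smul]
    have h : ∀ w : K ⊗[R] (lat D (one_mul_two (R := R))).carrier,
        ((theta D hcd).restrictScalars R).baseChange K
          (((theta' D hcd).restrictScalars R).baseChange K w) = algebraMap R K c • w := by
      intro w
      induction w using TensorProduct.induction_on with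
      | zero => simp
      | add a b ha hb => simp only [map_add, ha, hb, smul_add]
      | tmul k m =>
        change k ⊗ₜ[R] (theta D hcd (theta' D hcd m)) = _
        rw [theta_theta', TensorProduct.tmul_smul, algebraMap_smul]
    rw [h, smul_smul, inv_mul_cancel₀ hc, one_smul]

theorem not_injective' [IsFractionRing R K] [Finite (R ⧸ Ideal.span {(2 : R)})]
    (h4 : (mulR (2 : R)).index = 4) (h2 : (mulR (D.s - 1)).index = 2) :
    ¬ Function.Injective (swanMap (La D)) := by
  intro hinj
  have hcd : (1 + D.s) * (D.s - 1) = 2 := by linear_combination D.hs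
  have h1 : swanMap (La D) (QuotientAddGroup.mk (FreeAbelianGroup.of (lat D hcd))) =
      swanMap (La D) (QuotientAddGroup.mk
        (FreeAbelianGroup.of (lat D (one_mul_two (R := R))))) := by
    have := G0Mod_eq_of_bijective (extMap (theta D hcd)) (extMap_theta_bijective D hcd)
    exact this
  have h3 := hinj h1
  rw [QuotientAddGroup.eq] at h3
  have h5 := relations_le D h3
  have h6 : Inv3 D (-FreeAbelianGroup.of (lat D hcd) +
      FreeAbelianGroup.of (lat D (one_mul_two (R := R)))) = 0 := h5
  rw [map_add, map_neg, Inv3, FreeAbelianGroup.lift_apply_of, FreeAbelianGroup.lift_apply_of,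
    neg_add_eq_zero] at h6
  have h7 := congrArg (fun u => ((Additive.toMul u : (ZMod 3)ˣ) : ZMod 3)) h6
  simp only [inv3, toMul_ofMul, Units.val_mk0] at h7
  rw [index_lat, index_lat, h4, h2] at h7
  revert h7
  decide

theorem swanNotInjective [IsFractionRing R K] [Finite (R ⧸ Ideal.span {(2 : R)})]
    (h4 : (mulR (2 : R)).index = 4) (h2 : (mulR (D.s - 1)).index = 2) :
    (La D).SwanNotInjective :=
  ⟨swanMap (La D), isSwanMap D.inj (La D), not_injective' D h4 h2⟩

end

end Q4.Swan
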