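import Pool.Agent.Q4.Swan.Order

/-!
# Two lattices
-/

open scoped TensorProduct

namespace Q4.Swan

/-- The data needed for the construction: `s² = 3`, `u = 1/s`. -/
structure Dat (R K : Type) [CommRing R] [Field K] [Algebra R K] where
  h2 : (2 : K) ≠ 0
  inj : Function.Injective (algebraMap R K)
  s : R
  u : R
  hs : s * s = 3
  hu : u * s = 1

/-- A homomorphism from `C_4` given by the image of the generator. -/
def powHom {M : Type*} [Monoid M] (J : M) (hJ : J ^ 4 = 1) : C4 →* M where
  toFun g := J ^ (Multiplicative.toAdd g).val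
  map_one' := by simp
  map_mul' a b := by
    rw [toAdd_mul, ZMod.val_add, ← pow_add, ← pow_eq_pow_mod _ hJ]

theorem powHom_gam {M : Type*} [Monoid M] (J : M) (hJ : J ^ 4 = 1) : powHom J hJ gam = J := by
  change J ^ (1 : ZMod 4).val = J
  have : (1 : ZMod 4).val = 1 := rfl
  rw [this, pow_one]

section

variable {R K : Type} [CommRing R] [Field K] [Algebra R K] (D : Dat R K)

/-- The underlying space `K²` of the lattices. -/
def WM (_D : Dat R K) : Type := K × K

instance : AddCommGroup (WM D) := inferInstanceAs (AddCommGroup (K × K))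
instance : Module K (WM D) := inferInstanceAs (Module K (K × K))
instance : Module R (WM D) := inferInstanceAs (Module R (K × K))
instance : IsScalarTower R K (WM D) := inferInstanceAs (IsScalarTower R K (K × K))

/-- The complex structure. -/
def JJ : Module.End K (WM D) where
  toFun w := (algebraMap R K D.u * (w.1 - 2 * w.2), algebraMap R K D.u * (2 * w.1 - w.2))
  map_add' a b := by
    refine Prod.ext ?_ ?_
    · change algebraMap R K D.u * ((a.1 + b.1) - 2 * (a.2 + b.2)) =
        algebraMap R K D.u * (a.1 - 2 * a.2) + algebraMap R K D.u * (b.1 - 2 * b.2)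
      ring
    · change algebraMap R K D.u * (2 * (a.1 + b.1) - (a.2 + b.2)) =
        algebraMap R K D.u * (2 * a.1 - a.2) + algebraMap R K D.u * (2 * b.1 - b.2)
      ring
  map_smul' k a := by
    refine Prod.ext ?_ ?_
    · change algebraMap R K D.u * ((k * a.1) - 2 * (k * a.2)) =
        k * (algebraMap R K D.u * (a.1 - 2 * a.2))
      ring
    · change algebraMap R K D.u * (2 * (k * a.1) - (k * a.2)) =
        k * (algebraMap R K D.u * (2 * a.1 - a.2))
      ring

theorem JJ_apply (w : WM D) : JJ D w =
    (algebraMap R K D.u * (w.1 - 2 * w.2), algebraMap R K D.u * (2 * w.1 - w.2)) := rfl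

theorem uu3 : algebraMap R K D.u * algebraMap R K D.u * 3 = 1 := by
  have h : D.u * D.u * 3 = 1 := by
    rw [← D.hs]
    linear_combination (D.u * D.s + 1) * D.hu
  have := congrArg (algebraMap R K) h
  rwa [map_mul, map_mul, map_ofNat, map_one] at this

theorem JJ_sq (w : WM D) : JJ D (JJ D w) = - w := by
  have h := uu3 D
  refine Prod.ext ?_ ?_
  · change algebraMap R K D.u * (algebraMap R K D.u * (w.1 - 2 * w.2) -
      2 * (algebraMap R K D.u * (2 * w.1 - w.2))) = - w.1
    linear_combination (- w.1) * h
  · change algebraMap R K D.u * (2 * (algebraMap R K D.u * (w.1 - 2 * w.2)) -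
      (algebraMap R K D.u * (2 * w.1 - w.2))) = - w.2
    linear_combination (- w.2) * h

theorem JJ_pow_four : JJ D ^ 4 = 1 := by
  ext w : 1
  change JJ D (JJ D (JJ D (JJ D w))) = w
  rw [JJ_sq, JJ_sq, neg_neg]

/-- The action of `K[C_4]` on `K²`. -/
noncomputable def chi : MonoidAlgebra K C4 →ₐ[K] Module.End K (WM D) :=
  MonoidAlgebra.lift K _ C4 (powHom (JJ D) (JJ_pow_four D))

theorem chi_gg : chi D (gg K) = JJ D := by
  unfold chi gg
  rw [MonoidAlgebra.lift_of, powHom_gam]

theorem chi_tt : chi D (tt K) = algebraMap K _ (1 / 2) := by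
  rw [tt, AlgHom.commutes]

theorem chi_ee : chi D (ee K) = 0 := by
  ext w : 1
  rw [ee, map_mul, map_add, map_one, map_pow, chi_gg, chi_tt, pow_two]
  change (1 / 2 : K) • (w + JJ D (JJ D w)) = 0
  rw [JJ_sq, add_neg_cancel, smul_zero]

theorem chi_ff : chi D (ff K) = 1 := by
  have := congrArg (chi D) (ee_add_ff D.h2)
  rwa [map_add, chi_ee, zero_add, map_one] at this

/-- The order. -/
noncomputable abbrev La : HopfOrder R K C4 := HO R D.h2

noncomputable instance : Module (La D).alg (WM D) :=
  Module.compHom (R := Module.End K (WM D)) (WM D)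
    ((chi D).toRingHom.comp (La D).alg.val.toRingHom)

theorem smul_def (x : (La D).alg) (w : WM D) : x • w = chi D (x : MonoidAlgebra K C4) w := rfl

instance : IsScalarTower R (La D).alg (WM D) := by
  refine ⟨fun r x w => ?_⟩
  rw [smul_def, smul_def]
  change chi D (r • (x : MonoidAlgebra K C4)) w = _
  rw [algebra_compatible_smul K r (x : MonoidAlgebra K C4), map_smul, LinearMap.smul_apply,
    ← algebra_compatible_smul K r]

/-- `Λ`-stability from stability under the generator. -/
theorem stable (N : Submodule R (WM D)) (hN : ∀ w ∈ N, JJ D w ∈ N) (x : (La D).alg) (w : WM D)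
    (hw : w ∈ N) : x • w ∈ N := by
  obtain ⟨x, hx⟩ := x
  rw [smul_def]
  change chi D x w ∈ N
  have hx' : x ∈ Submodule.span R (gens K) := hx
  clear hx
  induction hx' using Submodule.span_induction with
  | mem x h =>
    simp only [gens, Set.mem_insert_iff, Set.mem_singleton_iff] at h
    rcases h with rfl | rfl | rfl | rfl
    · rw [chi_ee]; exact zero_mem _
    · rw [map_mul, chi_ee, mul_zero]; exact zero_mem _
    · rw [chi_ff]; exact hw
    · rw [map_mul, chi_ff, mul_one, chi_gg]; exact hN w hw
  | zero => rw [map_zero]; exact zero_mem _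
  | add a b ha hb iha ihb => rw [map_add]; exact add_mem iha ihb
  | smul r a ha iha =>
    rw [algebra_compatible_smul K r a, map_smul, LinearMap.smul_apply,
      ← algebra_compatible_smul K r]
    exact Submodule.smul_mem _ _ iha

/-- The parametrization `(x, y) ↦ (x, c y)` of the lattice. -/
noncomputable def par (c : R) : (R × R) →ₗ[R] WM D where
  toFun p := (algebraMap R K p.1, algebraMap R K (c * p.2))
  map_add' a b := by
    refine Prod.ext ?_ ?_
    · change algebraMap R K (a.1 + b.1) = algebraMap R K a.1 + algebraMap R K b.1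
      rw [map_add]
    · change algebraMap R K (c * (a.2 + b.2)) =
        algebraMap R K (c * a.2) + algebraMap R K (c * b.2)
      rw [mul_add, map_add]
  map_smul' r a := by
    refine Prod.ext ?_ ?_
    · change algebraMap R K (r * a.1) = r • algebraMap R K a.1
      rw [map_mul, Algebra.smul_def]
    · change algebraMap R K (c * (r * a.2)) = r • algebraMap R K (c * a.2)
      rw [mul_left_comm, map_mul _ r, Algebra.smul_def]

theorem par_apply (c : R) (p : R × R) :
    par D c p = (algebraMap R K p.1, algebraMap R K (c * p.2)) := rfl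

theorem JJ_par {c d : R} (hcd : c * d = 2) (p : R × R) :
    JJ D (par D c p) = par D c (D.u * (p.1 - 2 * (c * p.2)), D.u * (d * p.1 - p.2)) := by
  rw [JJ_apply, par_apply, par_apply]
  refine Prod.ext ?_ ?_
  · simp only [map_mul, map_sub, map_ofNat]
  · simp only [map_mul, map_sub]
    have := congrArg (algebraMap R K) hcd
    simp only [map_mul, map_ofNat] at this
    linear_combination (- algebraMap R K D.u * algebraMap R K p.1) * this

theorem par_injective {c d : R} (hcd : c * d = 2) : Function.Injective (par D c) := by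
  rw [injective_iff_map_eq_zero]
  intro p hp
  have h1 : algebraMap R K p.1 = 0 := congrArg Prod.fst hp
  have h2 : algebraMap R K (c * p.2) = 0 := congrArg Prod.snd hp
  have hc : algebraMap R K c ≠ 0 := by
    intro h
    have := congrArg (algebraMap R K) hcd
    rw [map_mul, h, zero_mul, map_ofNat] at this
    exact D.h2 this.symm
  rw [map_mul, mul_eq_zero, or_iff_right hc] at h2
  rw [← map_zero (algebraMap R K)] at h1 h2
  exact Prod.ext (D.inj h1) (D.inj h2)

/-- The lattice `{(x, c y) : x, y ∈ R}`. -/
noncomputable def Mc {c d : R} (hcd : c * d = 2) : Submodule (La D).alg (WM D) where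
  carrier := Set.range (par D c)
  add_mem' := by
    rintro _ _ ⟨p, rfl⟩ ⟨q, rfl⟩
    exact ⟨p + q, map_add _ _ _⟩
  zero_mem' := ⟨0, map_zero _⟩
  smul_mem' := by
    intro x w hw
    have := stable D (LinearMap.range (par D c)) (by
      rintro _ ⟨p, rfl⟩
      exact ⟨_, (JJ_par D hcd p).symm⟩) x w hw
    exact this

theorem mem_Mc {c d : R} (hcd : c * d = 2) {w : WM D} : w ∈ Mc D hcd ↔ ∃ p, par D c p = w :=
  Iff.rfl

/-- The lattice is free. -/
noncomputable def eqv {c d : R} (hcd : c * d = 2) : (R × R) ≃ₗ[R] Mc D hcd :=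
  LinearEquiv.ofBijective
    { toFun := fun p => ⟨par D c p, ⟨p, rfl⟩⟩
      map_add' := fun a b => Subtype.ext (map_add _ a b)
      map_smul' := fun r a => Subtype.ext (map_smul _ r a) }
    ⟨fun a b hab => par_injective D hcd (congrArg Subtype.val hab), by
      rintro ⟨_, p, rfl⟩
      exact ⟨p, rfl⟩⟩

theorem coe_eqv {c d : R} (hcd : c * d = 2) (p : R × R) : (eqv D hcd p : WM D) = par D c p := rfl

/-- The lattice. -/
noncomputable def lat {c d : R} (hcd : c * d = 2) : Lattice R (La D).alg where
  carrier := Mc D hcd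
  finite := by
    have : Module.Finite R (Mc D hcd) := Module.Finite.equiv (eqv D hcd)
    exact Module.Finite.of_restrictScalars_finite R _ _
  free := Module.Free.of_equiv (eqv D hcd)

end

end Q4.Swan
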