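import Pool.Agent.Q4.Swan.Ext
import Pool.Agent.Q4.Swan.Invariant

/-!
# A Hopf order in `K[C_4]`
-/

open scoped TensorProduct

namespace Q4.Swan

/-- The cyclic group of order `4`. -/
abbrev C4 : Type := Multiplicative (ZMod 4)

/-- The generator of `C_4`. -/
def gam : C4 := Multiplicative.ofAdd 1

theorem gam_pow_four : gam ^ 4 = 1 := by decide

theorem exists_gam_pow (g : C4) : ∃ n : ℕ, g = gam ^ n := by
  have h : ∀ g : C4, ∃ n : Fin 4, g = gam ^ (n : ℕ) := by decide
  obtain ⟨n, hn⟩ := h g
  exact ⟨n, hn⟩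

variable (K : Type) [Field K]

/-- The generator of `C_4` in the group algebra. -/
noncomputable def gg : MonoidAlgebra K C4 := MonoidAlgebra.of K C4 gam

/-- `1/2` in the group algebra. -/
noncomputable def tt : MonoidAlgebra K C4 := algebraMap K _ (1 / 2)

/-- The idempotent `(1 + g²)/2`. -/
noncomputable def ee : MonoidAlgebra K C4 := tt K * (1 + gg K ^ 2)

/-- The idempotent `(1 - g²)/2`. -/
noncomputable def ff : MonoidAlgebra K C4 := tt K * (1 - gg K ^ 2)

theorem gg_pow : gg K ^ 4 = 1 := by
  rw [gg, ← map_pow, gam_pow_four, map_one]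

variable {K}

theorem two_tt (h2 : (2 : K) ≠ 0) : 2 * tt K = 1 := by
  have : (2 : MonoidAlgebra K C4) = algebraMap K _ 2 := (map_ofNat _ 2).symm
  rw [this, tt, ← map_mul, mul_one_div_cancel h2, map_one]

theorem ee_mul_ee (h2 : (2 : K) ≠ 0) : ee K * ee K = ee K := by
  have h := gg_pow K
  have h' := two_tt h2
  unfold ee
  linear_combination (tt K)^2 * h + tt K * (1 + gg K ^2) * h'

theorem ff_mul_ff (h2 : (2 : K) ≠ 0) : ff K * ff K = ff K := by
  have h := gg_pow K
  have h' := two_tt h2
  unfold ff
  linear_combination (tt K)^2 * h + tt K * (1 - gg K ^2) * h'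

theorem ee_mul_ff : ee K * ff K = 0 := by
  have h := gg_pow K
  unfold ff ee
  linear_combination -(tt K)^2 * h

theorem sq_mul_ee : gg K ^ 2 * ee K = ee K := by
  have h := gg_pow K
  unfold ee
  linear_combination (tt K) * h

theorem sq_mul_ff : gg K ^ 2 * ff K = - ff K := by
  have h := gg_pow K
  unfold ff
  linear_combination (-tt K) * h

theorem ee_add_ff (h2 : (2 : K) ≠ 0) : ee K + ff K = 1 := by
  have h' := two_tt h2
  unfold ee ff
  linear_combination h'

variable (K) in
/-- The generators of the Hopf order. -/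
def gens : Set (MonoidAlgebra K C4) := {ee K, gg K * ee K, ff K, gg K * ff K}

variable (R : Type) [CommRing R] [Algebra R K]

theorem mul_mem_gens (h2 : (2 : K) ≠ 0) {x y : MonoidAlgebra K C4}
    (hx : x ∈ Submodule.span R (gens K)) (hy : y ∈ Submodule.span R (gens K)) :
    x * y ∈ Submodule.span R (gens K) := by
  have h1 := ee_mul_ee h2
  have h3 := ff_mul_ff h2
  have h4 := ee_mul_ff (K := K)
  have h5 := sq_mul_ee (K := K)
  have h6 := sq_mul_ff (K := K)
  have m1 : ee K ∈ Submodule.span R (gens K) := Submodule.subset_span (by simp [gens])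
  have m2 : gg K * ee K ∈ Submodule.span R (gens K) := Submodule.subset_span (by simp [gens])
  have m3 : ff K ∈ Submodule.span R (gens K) := Submodule.subset_span (by simp [gens])
  have m4 : gg K * ff K ∈ Submodule.span R (gens K) := Submodule.subset_span (by simp [gens])
  have hle : Submodule.span R (gens K) * Submodule.span R (gens K) ≤
      Submodule.span R (gens K) := by
    rw [Submodule.span_mul_span, Submodule.span_le]
    rintro _ ⟨a, ha, b, hb, rfl⟩
    simp only [gens, Set.mem_insert_iff, Set.mem_singleton_iff] at ha hb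
    change a * b ∈ Submodule.span R (gens K)
    rcases ha with rfl | rfl | rfl | rfl <;> rcases hb with rfl | rfl | rfl | rfl
    · rwa [h1]
    · have : ee K * (gg K * ee K) = gg K * ee K := by linear_combination gg K * h1
      rwa [this]
    · rw [h4]; exact zero_mem _
    · have : ee K * (gg K * ff K) = 0 := by linear_combination gg K * h4
      rw [this]; exact zero_mem _
    · have : gg K * ee K * ee K = gg K * ee K := by linear_combination gg K * h1
      rwa [this]
    · have : gg K * ee K * (gg K * ee K) = ee K := by linear_combination gg K ^ 2 * h1 + h5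
      rwa [this]
    · have : gg K * ee K * ff K = 0 := by linear_combination gg K * h4
      rw [this]; exact zero_mem _
    · have : gg K * ee K * (gg K * ff K) = 0 := by linear_combination gg K ^ 2 * h4
      rw [this]; exact zero_mem _
    · rw [mul_comm, h4]; exact zero_mem _
    · have : ff K * (gg K * ee K) = 0 := by linear_combination gg K * h4
      rw [this]; exact zero_mem _
    · rwa [h3]
    · have : ff K * (gg K * ff K) = gg K * ff K := by linear_combination gg K * h3
      rwa [this]
    · have : gg K * ff K * ee K = 0 := by linear_combination gg K * h4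
      rw [this]; exact zero_mem _
    · have : gg K * ff K * (gg K * ee K) = 0 := by linear_combination gg K ^ 2 * h4
      rw [this]; exact zero_mem _
    · have : gg K * ff K * ff K = gg K * ff K := by linear_combination gg K * h3
      rwa [this]
    · have : gg K * ff K * (gg K * ff K) = - ff K := by linear_combination gg K ^ 2 * h3 + h6
      rw [this]; exact neg_mem m3
  exact hle (Submodule.mul_mem_mul hx hy)

/-- The subalgebra spanned by the generators. -/
noncomputable def algE (h2 : (2 : K) ≠ 0) : Subalgebra R (MonoidAlgebra K C4) :=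
  (Submodule.span R (gens K)).toSubalgebra
    (by
      rw [← ee_add_ff h2]
      exact add_mem (Submodule.subset_span (by simp [gens])) (Submodule.subset_span (by simp [gens])))
    (fun _ _ hx hy => mul_mem_gens R h2 hx hy)

theorem mem_algE (h2 : (2 : K) ≠ 0) {x : MonoidAlgebra K C4} :
    x ∈ algE R h2 ↔ x ∈ Submodule.span R (gens K) := Iff.rfl

theorem gg_mem (h2 : (2 : K) ≠ 0) : gg K ∈ algE R h2 := by
  rw [mem_algE]
  have : gg K = gg K * ee K + gg K * ff K := by linear_combination - gg K * ee_add_ff h2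
  rw [this]
  exact add_mem (Submodule.subset_span (by simp [gens])) (Submodule.subset_span (by simp [gens]))

theorem ff_mem (h2 : (2 : K) ≠ 0) : ff K ∈ algE R h2 := by
  rw [mem_algE]
  exact Submodule.subset_span (by simp [gens])

theorem of_mem_algE (h2 : (2 : K) ≠ 0) (g : C4) : MonoidAlgebra.of K C4 g ∈ algE R h2 := by
  obtain ⟨n, rfl⟩ := exists_gam_pow g
  rw [map_pow]
  exact pow_mem (gg_mem R h2) n

variable (K) in
/-- `x ↦ x ⊗ 1`. -/
noncomputable def il : MonoidAlgebra K C4 →ₐ[K] MonoidAlgebra K C4 ⊗[K] MonoidAlgebra K C4 :=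
  Algebra.TensorProduct.includeLeft

variable (K) in
/-- `x ↦ 1 ⊗ x`. -/
noncomputable def ir : MonoidAlgebra K C4 →ₐ[K] MonoidAlgebra K C4 ⊗[K] MonoidAlgebra K C4 :=
  Algebra.TensorProduct.includeRight

theorem tmul_eq (x y : MonoidAlgebra K C4) : x ⊗ₜ[K] y = il K x * ir K y := by
  simp [il, ir]

variable (K) in
/-- The comultiplication as an algebra homomorphism. -/
noncomputable def cm : MonoidAlgebra K C4 →ₐ[K] MonoidAlgebra K C4 ⊗[K] MonoidAlgebra K C4 :=
  Bialgebra.comulAlgHom K (MonoidAlgebra K C4)

theorem cm_gg : cm K (gg K) = il K (gg K) * ir K (gg K) := by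
  rw [← tmul_eq]
  change Coalgebra.comul (R := K) (gg K) = _
  simp [gg, MonoidAlgebra.of_apply]

theorem cm_tt : cm K (tt K) = il K (tt K) := by
  rw [tt, AlgHom.commutes, AlgHom.commutes]

theorem ir_tt : ir K (tt K) = il K (tt K) := by
  rw [tt, AlgHom.commutes, AlgHom.commutes]

theorem two_il_tt (h2 : (2 : K) ≠ 0) : 2 * il K (tt K) = 1 := by
  have := congrArg (il K) (two_tt h2)
  rwa [map_mul, map_one, map_ofNat] at this

theorem cm_ee (h2 : (2 : K) ≠ 0) : cm K (ee K) = ee K ⊗ₜ[K] ee K + ff K ⊗ₜ[K] ff K := by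
  rw [tmul_eq, tmul_eq]
  simp only [ee, ff, map_mul, map_add, map_sub, map_one, map_pow, cm_gg, cm_tt, ir_tt]
  linear_combination
    -(il K (tt K) * (1 + (il K (gg K) * ir K (gg K)) ^ 2)) * two_il_tt h2

theorem cm_ff (h2 : (2 : K) ≠ 0) : cm K (ff K) = ee K ⊗ₜ[K] ff K + ff K ⊗ₜ[K] ee K := by
  rw [tmul_eq, tmul_eq]
  simp only [ee, ff, map_mul, map_add, map_sub, map_one, map_pow, cm_gg, cm_tt, ir_tt]
  linear_combination
    -(il K (tt K) * (1 - (il K (gg K) * ir K (gg K)) ^ 2)) * two_il_tt h2

theorem cm_gg_ee (h2 : (2 : K) ≠ 0) : cm K (gg K * ee K) =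
    (gg K * ee K) ⊗ₜ[K] (gg K * ee K) + (gg K * ff K) ⊗ₜ[K] (gg K * ff K) := by
  rw [map_mul, cm_ee h2, cm_gg]
  simp only [tmul_eq, map_mul]
  ring

theorem cm_gg_ff (h2 : (2 : K) ≠ 0) : cm K (gg K * ff K) =
    (gg K * ee K) ⊗ₜ[K] (gg K * ff K) + (gg K * ff K) ⊗ₜ[K] (gg K * ee K) := by
  rw [map_mul, cm_ff h2, cm_gg]
  simp only [tmul_eq, map_mul]
  ring

theorem span_algE (h2 : (2 : K) ≠ 0) :
    Submodule.span K (algE R h2 : Set (MonoidAlgebra K C4)) = ⊤ := by
  rw [eq_top_iff]
  intro x _
  induction x using MonoidAlgebra.induction_on with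
  | of g => exact Submodule.subset_span (of_mem_algE R h2 g)
  | add a b ha hb => exact add_mem (ha trivial) (hb trivial)
  | smul r a ha => exact Submodule.smul_mem _ _ (ha trivial)

theorem counit_mem_algE (h2 : (2 : K) ≠ 0) (x : MonoidAlgebra K C4) (hx : x ∈ algE R h2) :
    Coalgebra.counit (R := K) x ∈ (algebraMap R K).range := by
  have hg : Bialgebra.counitAlgHom K (MonoidAlgebra K C4) (gg K) = 1 := by
    change Coalgebra.counit (R := K) (gg K) = _
    simp [gg, MonoidAlgebra.of_apply]
  have ht : Bialgebra.counitAlgHom K (MonoidAlgebra K C4) (tt K) = 1 / 2 := by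
    rw [tt, AlgHom.commutes]
    rfl
  have he : Bialgebra.counitAlgHom K (MonoidAlgebra K C4) (ee K) = 1 := by
    rw [ee, map_mul, map_add, map_pow, hg, ht, map_one]
    field_simp
    norm_num
  have hf : Bialgebra.counitAlgHom K (MonoidAlgebra K C4) (ff K) = 0 := by
    rw [ff, map_mul, map_sub, map_pow, hg, ht, map_one]
    norm_num
  have hx' : x ∈ Submodule.span R (gens K) := hx
  change Bialgebra.counitAlgHom K (MonoidAlgebra K C4) x ∈ (algebraMap R K).range
  induction hx' using Submodule.span_induction with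
  | mem x h =>
    simp only [gens, Set.mem_insert_iff, Set.mem_singleton_iff] at h
    rcases h with rfl | rfl | rfl | rfl
    · rw [he]; exact one_mem _
    · rw [map_mul, he, hg, mul_one]; exact one_mem _
    · rw [hf]; exact zero_mem _
    · rw [map_mul, hf, mul_zero]; exact zero_mem _
  | zero => rw [map_zero]; exact zero_mem _
  | add a b ha hb iha ihb =>
    rw [map_add]; exact add_mem (iha ha) (ihb hb)
  | smul r a ha iha =>
    obtain ⟨z, hz⟩ := iha ha
    rw [algebra_compatible_smul K r a, map_smul, ← hz]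
    exact ⟨r * z, by rw [map_mul, smul_eq_mul]⟩

theorem antipode_mem_algE (h2 : (2 : K) ≠ 0) (x : MonoidAlgebra K C4) (hx : x ∈ algE R h2) :
    HopfAlgebra.antipode K x ∈ algE R h2 := by
  have h4 : gg K ^ 4 = 1 := gg_pow K
  have hgi : (gam)⁻¹ = gam ^ 3 := by decide
  have hg : HopfAlgebra.antipodeAlgHom K (MonoidAlgebra K C4) (gg K) = gg K ^ 3 := by
    change HopfAlgebra.antipode K (gg K) = _
    rw [gg, ← map_pow, ← hgi]
    simp [MonoidAlgebra.of_apply]
  have ht : HopfAlgebra.antipodeAlgHom K (MonoidAlgebra K C4) (tt K) = tt K := by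
    rw [tt, AlgHom.commutes]
  have he : HopfAlgebra.antipodeAlgHom K (MonoidAlgebra K C4) (ee K) = ee K := by
    rw [ee, map_mul, map_add, map_pow, hg, ht, map_one]
    linear_combination tt K * gg K ^ 2 * h4
  have hf : HopfAlgebra.antipodeAlgHom K (MonoidAlgebra K C4) (ff K) = ff K := by
    rw [ff, map_mul, map_sub, map_pow, hg, ht, map_one]
    linear_combination - tt K * gg K ^ 2 * h4
  have he' := he
  have hx' : x ∈ Submodule.span R (gens K) := hx
  change HopfAlgebra.antipodeAlgHom K (MonoidAlgebra K C4) x ∈ algE R h2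
  have m1 : ee K ∈ algE R h2 := Submodule.subset_span (by simp [gens])
  have m3 : ff K ∈ algE R h2 := Submodule.subset_span (by simp [gens])
  have m0 : gg K ∈ algE R h2 := gg_mem R h2
  induction hx' using Submodule.span_induction with
  | mem x h =>
    simp only [gens, Set.mem_insert_iff, Set.mem_singleton_iff] at h
    rcases h with rfl | rfl | rfl | rfl
    · rw [he]; exact m1
    · rw [map_mul, he, hg]; exact mul_mem (pow_mem m0 3) m1
    · rw [hf]; exact m3
    · rw [map_mul, hf, hg]; exact mul_mem (pow_mem m0 3) m3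
  | zero => rw [map_zero]; exact zero_mem _
  | add a b ha hb iha ihb =>
    rw [map_add]; exact add_mem (iha ha) (ihb hb)
  | smul r a ha iha =>
    rw [algebra_compatible_smul K r a, map_smul, ← algebra_compatible_smul K r]
    exact Subalgebra.smul_mem _ (iha ha) r

theorem comul_mem_algE (h2 : (2 : K) ≠ 0) (x : MonoidAlgebra K C4) (hx : x ∈ algE R h2) :
    Coalgebra.comul (R := K) x ∈
    Submodule.span R {t : MonoidAlgebra K C4 ⊗[K] MonoidAlgebra K C4 |
      ∃ y ∈ algE R h2, ∃ z ∈ algE R h2, t = y ⊗ₜ[K] z} := by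
  have m1 : ee K ∈ algE R h2 := Submodule.subset_span (by simp [gens])
  have m3 : ff K ∈ algE R h2 := Submodule.subset_span (by simp [gens])
  have m0 : gg K ∈ algE R h2 := gg_mem R h2
  have m2 := mul_mem m0 m1
  have m4 := mul_mem m0 m3
  have hx' : x ∈ Submodule.span R (gens K) := hx
  change cm K x ∈ _
  induction hx' using Submodule.span_induction with
  | mem x h =>
    simp only [gens, Set.mem_insert_iff, Set.mem_singleton_iff] at h
    rcases h with rfl | rfl | rfl | rfl
    · rw [cm_ee h2]
      exact add_mem (Submodule.subset_span ⟨_, m1, _, m1, rfl⟩)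
        (Submodule.subset_span ⟨_, m3, _, m3, rfl⟩)
    · rw [cm_gg_ee h2]
      exact add_mem (Submodule.subset_span ⟨_, m2, _, m2, rfl⟩)
        (Submodule.subset_span ⟨_, m4, _, m4, rfl⟩)
    · rw [cm_ff h2]
      exact add_mem (Submodule.subset_span ⟨_, m1, _, m3, rfl⟩)
        (Submodule.subset_span ⟨_, m3, _, m1, rfl⟩)
    · rw [cm_gg_ff h2]
      exact add_mem (Submodule.subset_span ⟨_, m2, _, m4, rfl⟩)
        (Submodule.subset_span ⟨_, m4, _, m2, rfl⟩)
  | zero => rw [map_zero]; exact zero_mem _
  | add a b ha hb iha ihb =>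
    rw [map_add]; exact add_mem (iha ha) (ihb hb)
  | smul r a ha iha =>
    rw [algebra_compatible_smul K r a, map_smul, ← algebra_compatible_smul K r]
    exact Submodule.smul_mem _ r (iha ha)

/-- The Hopf order. -/
noncomputable def HO (h2 : (2 : K) ≠ 0) : HopfOrder R K C4 where
  alg := algE R h2
  finite := by
    have : Module.Finite R (Submodule.span R (gens K)) := by
      apply Module.Finite.span_of_finite
      unfold gens
      exact Set.toFinite _
    exact this
  span_eq_top := span_algE R h2
  comul_mem := comul_mem_algE R h2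
  counit_mem := counit_mem_algE R h2
  antipode_mem := antipode_mem_algE R h2
  of_mem := of_mem_algE R h2

end Q4.Swan
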