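import Pool.Agent.Q4.Swan.Kernel

/-!
# The field `ℚ_2(√3)`
-/

open Polynomial

namespace Q4.Swan

instance : Fact (Nat.Prime 2) := ⟨Nat.prime_two⟩

theorem not_sq (b : ℚ_[2]) : b ^ 2 ≠ 3 := by
  intro h
  have h3 : ‖(3 : ℚ_[2])‖ ≤ 1 := by
    have := Padic.norm_int_le_one (p := 2) 3
    exact_mod_cast this
  have hb : ‖b‖ ≤ 1 := by
    by_contra hlt
    push Not at hlt
    have : 1 < ‖b‖ ^ 2 := one_lt_pow₀ hlt two_ne_zero
    rw [← norm_pow, h] at this
    linarith
  let b' : ℤ_[2] := ⟨b, hb⟩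
  have hb' : b' ^ 2 = 3 := by
    apply Subtype.ext
    push_cast
    exact h
  have h4 := congrArg (PadicInt.toZModPow (p := 2) 2) hb'
  rw [map_pow, map_ofNat] at h4
  revert h4
  generalize (PadicInt.toZModPow (p := 2) 2) b' = z
  revert z
  decide

/-- `X² - 3`. -/
noncomputable abbrev pol : ℚ_[2][X] := X ^ 2 - C 3

theorem irr : Irreducible pol := X_pow_sub_C_irreducible_of_prime Nat.prime_two not_sq

instance : Fact (Irreducible pol) := ⟨irr⟩

/-- `ℚ_2(√3)`. -/
noncomputable abbrev KK : Type := AdjoinRoot pol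

instance : FiniteDimensional ℚ_[2] KK := (monic_X_pow_sub_C (3 : ℚ_[2]) two_ne_zero).finite_adjoinRoot

theorem finrank_KK : Module.finrank ℚ_[2] KK = 2 := by
  rw [PowerBasis.finrank (AdjoinRoot.powerBasis irr.ne_zero), AdjoinRoot.powerBasis_dim]
  exact natDegree_X_pow_sub_C

/-- `ℚ_2(√3)` as an extension of `ℚ_2`. -/
noncomputable def FF : LocalField 2 := ⟨AdjoinRoot pol⟩

/-- The valuation ring of `ℚ_2(√3)`. -/
noncomputable abbrev RR : Subalgebra ℤ_[2] KK := integralClosure ℤ_[2] KK

theorem root_sq : (AdjoinRoot.root pol) ^ 2 = 3 := by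
  have := AdjoinRoot.eval₂_root pol
  rw [pol, eval₂_sub, eval₂_pow, eval₂_X, eval₂_C, sub_eq_zero] at this
  exact this.trans (map_ofNat _ 3)

theorem root_integral : IsIntegral ℤ_[2] (AdjoinRoot.root pol) := by
  refine ⟨X ^ 2 - C 3, monic_X_pow_sub_C _ two_ne_zero, ?_⟩
  rw [eval₂_sub, eval₂_pow, eval₂_X, eval₂_C, map_ofNat, root_sq, sub_self]

/-- `√3` -/
noncomputable def ss : RR := ⟨AdjoinRoot.root pol, root_integral⟩

theorem ss_sq : ss * ss = 3 := by
  apply Subtype.ext
  change AdjoinRoot.root pol * AdjoinRoot.root pol = 3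
  rw [← pow_two, root_sq]

theorem isUnit_three : IsUnit (3 : ℤ_[2]) := by
  have h : ¬ (‖(3 : ℤ_[2])‖ < 1) := by
    have := (PadicInt.norm_int_lt_one_iff_dvd (p := 2) 3).not
    rw [show ((3 : ℤ) : ℤ_[2]) = 3 by norm_num] at this
    rw [this]
    decide
  rw [PadicInt.isUnit_iff]
  exact le_antisymm (PadicInt.norm_le_one _) (not_lt.1 h)

theorem exists_uu : ∃ u : RR, u * ss = 1 := by
  obtain ⟨v, hv⟩ := isUnit_three.exists_left_inv
  refine ⟨algebraMap _ _ v * ss, ?_⟩
  rw [mul_assoc, ss_sq, ← map_ofNat (algebraMap ℤ_[2] RR) 3, ← map_mul, hv, map_one]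

/-- The data. -/
noncomputable def DD : Dat RR KK where
  h2 := by
    have : CharZero KK := charZero_of_injective_algebraMap (algebraMap ℚ_[2] KK).injective
    exact two_ne_zero
  inj := Subtype.val_injective
  s := ss
  u := exists_uu.choose
  hs := ss_sq
  hu := exists_uu.choose_spec

instance : Module.IsTorsionFree ℤ_[2] KK :=
  Module.IsTorsionFree.trans_faithfulSMul ℤ_[2] ℚ_[2] KK

theorem finrank_RR : Module.finrank ℤ_[2] RR = 2 := by
  have : CharZero ℚ_[2] := inferInstance
  rw [IsIntegralClosure.rank ℤ_[2] ℚ_[2] KK RR, finrank_KK]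

instance : Module.Finite ℤ_[2] RR := IsIntegralClosure.finite ℤ_[2] ℚ_[2] KK RR

instance : Module.Free ℤ_[2] RR := IsIntegralClosure.module_free ℤ_[2] ℚ_[2] KK RR

theorem toZMod_surjective : Function.Surjective (PadicInt.toZMod (p := 2)) := by
  intro x
  exact ⟨(x.val : ℤ_[2]), by rw [map_natCast, ZMod.natCast_zmod_val]⟩

theorem toZMod_eq_zero (x : ℤ_[2]) : PadicInt.toZMod x = 0 ↔ ∃ y, x = 2 * y := by
  rw [← RingHom.mem_ker, PadicInt.ker_toZMod, PadicInt.maximalIdeal_eq_span_p,
    Ideal.mem_span_singleton]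
  rfl

theorem index_two : (mulR (2 : RR)).index = 4 := by
  let b := Module.finBasisOfFinrankEq ℤ_[2] RR finrank_RR
  let φ : RR →+ (Fin 2 → ZMod 2) :=
    { toFun := fun x i => PadicInt.toZMod (b.repr x i)
      map_zero' := by
        funext i
        simp
      map_add' := by
        intro x y
        funext i
        simp }
  have hφ : Function.Surjective φ := by
    intro z
    choose c hc using fun i => toZMod_surjective (z i)
    refine ⟨b.equivFun.symm c, ?_⟩
    funext i
    change PadicInt.toZMod (b.repr (b.equivFun.symm c) i) = z i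
    rw [← hc i, ← Module.Basis.equivFun_apply, LinearEquiv.apply_symm_apply]
  have hker : φ.ker = mulR (2 : RR) := by
    ext x
    rw [AddMonoidHom.mem_ker, mem_mulR]
    constructor
    · intro hx
      have h : ∀ i, ∃ y, b.repr x i = 2 * y := by
        intro i
        rw [← toZMod_eq_zero]
        exact congrFun hx i
      choose y hy using h
      refine ⟨b.equivFun.symm y, ?_⟩
      apply b.equivFun.injective
      funext i
      rw [two_mul, map_add, LinearEquiv.apply_symm_apply, Module.Basis.equivFun_apply, hy, Pi.add_apply,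
        two_mul]
    · rintro ⟨y, rfl⟩
      funext i
      change PadicInt.toZMod (b.repr (2 * y) i) = 0
      rw [toZMod_eq_zero]
      refine ⟨b.repr y i, ?_⟩
      rw [two_mul, map_add, Finsupp.add_apply, two_mul]
  rw [← hker, AddSubgroup.index_ker, AddMonoidHom.range_eq_top.2 hφ]
  simp

theorem finite_quot : Finite (RR ⧸ Ideal.span {(2 : RR)}) := by
  have h : (Ideal.span {(2 : RR)}).toAddSubgroup = mulR (2 : RR) := by
    ext x
    rw [mem_mulR]
    change x ∈ Ideal.span {(2 : RR)} ↔ _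
    rw [Ideal.mem_span_singleton]
    exact ⟨fun ⟨y, hy⟩ => ⟨y, hy.symm⟩, fun ⟨y, hy⟩ => ⟨y, hy.symm⟩⟩
  have h2 : Nat.card (RR ⧸ Ideal.span {(2 : RR)}) = 4 := by
    rw [← index_two, ← h]
    rfl
  exact (Nat.card_ne_zero.1 (by rw [h2]; norm_num)).2

theorem index_ss : (mulR (ss - 1)).index = 2 := by
  have h0 : (2 + ss) * (2 - ss) = 1 := by linear_combination - ss_sq
  have h1 : mulR (2 : RR) = (mulR (ss - 1)).map (AddMonoidHom.mulLeft (ss - 1)) := by
    ext x
    rw [mem_mulR, AddSubgroup.mem_map]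
    constructor
    · rintro ⟨y, rfl⟩
      refine ⟨(ss - 1) * ((2 + ss) * y), ⟨_, rfl⟩, ?_⟩
      change (ss - 1) * ((ss - 1) * ((2 + ss) * y)) = 2 * y
      linear_combination (ss * y) * ss_sq
    · rintro ⟨_, ⟨y, rfl⟩, rfl⟩
      refine ⟨(2 - ss) * y, ?_⟩
      change 2 * ((2 - ss) * y) = (ss - 1) * ((ss - 1) * y)
      linear_combination (- y) * ss_sq
  have hinj : Function.Injective (AddMonoidHom.mulLeft (ss - 1)) := by
    have hne : ss - 1 ≠ 0 := by
      intro h
      have h2 : (2 : RR) = 0 := by linear_combination (1 + ss) * h - ss_sq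
      have := congrArg (algebraMap RR KK) h2
      rw [map_ofNat, map_zero] at this
      exact DD.h2 this
    intro a b hab
    exact mul_left_cancel₀ hne hab
  have h3 := AddSubgroup.index_map_of_injective (mulR (ss - 1)) hinj
  rw [← h1, index_two] at h3
  have h4 : (AddMonoidHom.mulLeft (ss - 1)).range.index = (mulR (ss - 1)).index := rfl
  rw [h4] at h3
  nlinarith

theorem main : ∃ (F : LocalField 2) (Λ : F.Order (Multiplicative (ZMod 4))),
    Module.finrank ℚ_[2] F.K = 2 ∧ F.SwanNotInjective Λ := by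
  refine ⟨FF, (La DD : HopfOrder RR KK C4), finrank_KK, ?_⟩
  have : IsFractionRing (integralClosure ℤ_[2] KK) KK :=
    integralClosure.isFractionRing_of_finite_extension ℚ_[2] KK
  have := finite_quot
  exact swanNotInjective DD index_two index_ss

end Q4.Swan
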